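import Pool.Agent.R235.VE.Jet

open scoped RealInnerProductSpace ContDiff
open InnerProductSpace Laplacian

namespace R235.VE

variable {V : Type*} [NormedAddCommGroup V] [InnerProductSpace ℝ V]

/-- linear functions -/
noncomputable def XX (V : Type*) [NormedAddCommGroup V] [InnerProductSpace ℝ V] :
    Submodule ℝ (V → ℝ) :=
  LinearMap.range ({ toFun := fun a x => ⟪a, x⟫
                     map_add' := fun a b => by funext x; simp [inner_add_left]
                     map_smul' := fun c a => by funext x; simp [inner_smul_left] } : V →ₗ[ℝ] (V → ℝ))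

/-- homogeneous polynomial functions of degree `m` -/
noncomputable def PP (V : Type*) [NormedAddCommGroup V] [InnerProductSpace ℝ V] (m : ℕ) :
    Submodule ℝ (V → ℝ) := XX V ^ m

lemma lin_mem (a : V) : (fun x : V => ⟪a, x⟫) ∈ XX V := ⟨a, rfl⟩

lemma const_mem (r : ℝ) : (fun _ : V => r) ∈ PP V 0 := by
  unfold PP
  rw [pow_zero]
  exact Submodule.algebraMap_mem (A := V → ℝ) r

lemma PP_mul {m k : ℕ} {f g : V → ℝ} (hf : f ∈ PP V m) (hg : g ∈ PP V k) :
    (fun x => f x * g x) ∈ PP V (m + k) := by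
  unfold PP at *
  rw [pow_add]
  exact Submodule.mul_mem_mul hf hg

lemma lin_mul {m : ℕ} (a : V) {f : V → ℝ} (hf : f ∈ PP V m) :
    (fun x => ⟪a, x⟫ * f x) ∈ PP V (m + 1) := by
  unfold PP at *
  rw [pow_succ']
  exact Submodule.mul_mem_mul (lin_mem a) hf

lemma PP_induct {C : ℕ → (V → ℝ) → Prop} (hc : ∀ r : ℝ, C 0 (fun _ => r))
    (hadd : ∀ m f g, f ∈ PP V m → g ∈ PP V m → C m f → C m g → C m (fun x => f x + g x))
    (hmul : ∀ (a : V) m f, f ∈ PP V m → C m f → C (m + 1) (fun x => ⟪a, x⟫ * f x)) :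
    ∀ {m : ℕ} {f : V → ℝ}, f ∈ PP V m → C m f := by
  intro m f hf
  refine Submodule.pow_induction_on_left' (XX V) (C := fun n x _ => C n x) ?_ ?_ ?_ hf
  · intro r
    exact hc r
  · intro x y i hx hy h1 h2
    exact hadd i x y hx hy h1 h2
  · rintro m ⟨a, rfl⟩ i x hx h1
    exact hmul a i x hx h1

lemma PP_smooth {m : ℕ} {f : V → ℝ} (hf : f ∈ PP V m) : ContDiff ℝ ∞ f := by
  refine PP_induct (C := fun _ f => ContDiff ℝ ∞ f) ?_ ?_ ?_ hf
  · exact fun r => contDiff_const
  · exact fun m f g _ _ h1 h2 => h1.add h2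
  · intro a m f _ h1
    exact (contDiff_const.inner ℝ contDiff_id).mul h1

lemma PP_hom {m : ℕ} {f : V → ℝ} (hf : f ∈ PP V m) (t : ℝ) (x : V) : f (t • x) = t ^ m * f x := by
  revert t x
  refine PP_induct (C := fun m f => ∀ (t : ℝ) (x : V), f (t • x) = t ^ m * f x) ?_ ?_ ?_ hf
  · intro r t x; simp
  · intro m f g _ _ h1 h2 t x
    show f (t • x) + g (t • x) = t ^ m * (f x + g x)
    rw [h1, h2]; ring
  · intro a m f _ h1 t x
    show ⟪a, t • x⟫ * f (t • x) = t ^ (m + 1) * (⟪a, x⟫ * f x)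
    rw [h1, inner_smul_right]; ring

lemma fderiv_lin_mul (a : V) {f : V → ℝ} (hf : ContDiff ℝ ∞ f) (x v : V) :
    fderiv ℝ (fun x => ⟪a, x⟫ * f x) x v = ⟪a, v⟫ * f x + ⟪a, x⟫ * fderiv ℝ f x v := by
  have h1 : HasFDerivAt (fun x : V => ⟪a, x⟫) (innerSL ℝ a) x := (innerSL ℝ a).hasFDerivAt
  have h2 := (h1.mul (hasFDerivAt_of_smooth hf x)).fderiv
  have h3 : (fun x => ⟪a, x⟫ * f x) = (fun x : V => ⟪a, x⟫) * f := rfl
  rw [h3, h2]
  simp
  ring

lemma fderiv_add' {f g : V → ℝ} (hf : ContDiff ℝ ∞ f) (hg : ContDiff ℝ ∞ g) (x v : V) :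
    fderiv ℝ (fun x => f x + g x) x v = fderiv ℝ f x v + fderiv ℝ g x v := by
  rw [show (fun x => f x + g x) = f + g from rfl, fderiv_add ((hf.differentiable (by simp)) x)
    ((hg.differentiable (by simp)) x)]
  rfl

lemma PP_deriv_aux {m : ℕ} {f : V → ℝ} (hf : f ∈ PP V m) :
    (m = 0 → ∀ x v, fderiv ℝ f x v = 0) ∧ ∀ v, (fun x => fderiv ℝ f x v) ∈ PP V (m - 1) := by
  refine PP_induct (C := fun m f => (m = 0 → ∀ x v, fderiv ℝ f x v = 0) ∧
    ∀ v, (fun x => fderiv ℝ f x v) ∈ PP V (m - 1)) ?_ ?_ ?_ hf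
  · intro r
    refine ⟨fun _ x v => by simp, fun v => ?_⟩
    have : (fun x : V => (fderiv ℝ (fun _ : V => r) x) v) = 0 := by funext x; simp
    rw [this]
    exact Submodule.zero_mem _
  · intro m f g hf hg h1 h2
    refine ⟨fun hm x v => ?_, fun v => ?_⟩
    · rw [fderiv_add' (PP_smooth hf) (PP_smooth hg), h1.1 hm, h2.1 hm, add_zero]
    · have : (fun x : V => (fderiv ℝ (fun x => f x + g x) x) v)
          = (fun x => fderiv ℝ f x v) + (fun x => fderiv ℝ g x v) := by
        funext x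
        exact fderiv_add' (PP_smooth hf) (PP_smooth hg) x v
      rw [this]
      exact Submodule.add_mem _ (h1.2 v) (h2.2 v)
  · intro a m f hf h1
    refine ⟨fun hm => absurd hm (by omega), fun v => ?_⟩
    have : (fun x : V => (fderiv ℝ (fun x => ⟪a, x⟫ * f x) x) v)
          = (⟪a, v⟫ • f) + (fun x => ⟪a, x⟫ * fderiv ℝ f x v) := by
      funext x
      simp [fderiv_lin_mul a (PP_smooth hf)]
    rw [this, Nat.add_sub_cancel]
    refine Submodule.add_mem _ (Submodule.smul_mem _ _ hf) ?_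
    rcases Nat.eq_zero_or_pos m with hm | hm
    · have : (fun x : V => ⟪a, x⟫ * fderiv ℝ f x v) = 0 := by
        funext x
        rw [h1.1 hm]; simp
      rw [this]
      exact Submodule.zero_mem _
    · obtain ⟨k, rfl⟩ : ∃ k, m = k + 1 := ⟨m - 1, by omega⟩
      exact lin_mul a (h1.2 v)

lemma PP_deriv {m : ℕ} {f : V → ℝ} (hf : f ∈ PP V (m + 1)) (v : V) :
    (fun x => fderiv ℝ f x v) ∈ PP V m := (PP_deriv_aux hf).2 v

/-- Euler's identity -/
lemma PP_euler {m : ℕ} {f : V → ℝ} (hf : f ∈ PP V m) (x : V) : fderiv ℝ f x x = m * f x := by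
  revert x
  refine PP_induct (C := fun m f => ∀ x, fderiv ℝ f x x = m * f x) ?_ ?_ ?_ hf
  · intro r x; simp
  · intro m f g hf hg h1 h2 x
    rw [fderiv_add' (PP_smooth hf) (PP_smooth hg), h1, h2]; ring
  · intro a m f hf h1 x
    rw [fderiv_lin_mul a (PP_smooth hf), h1]; push_cast; ring

lemma Hs_eq {f : V → ℝ} (hf : ContDiff ℝ ∞ f) (x v w : V) :
    Hs f x v w = fderiv ℝ (fun y => fderiv ℝ f y w) x v := by
  have h1 : HasFDerivAt (fderiv ℝ f) (fderiv ℝ (fderiv ℝ f) x) x :=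
    (((fderiv_smooth hf).differentiable (by simp)) x).hasFDerivAt
  have h2 := (h1.clm_apply (hasFDerivAt_const w x)).fderiv
  rw [h2]
  simp [Hs]

lemma PP_euler2 {m : ℕ} {f : V → ℝ} (hf : f ∈ PP V m) (x : V) :
    Hs f x x x = m * (m - 1) * f x := by
  rw [Hs_eq (PP_smooth hf)]
  rcases Nat.eq_zero_or_pos m with hm | hm
  · have : (fun y : V => fderiv ℝ f y x) = fun _ => 0 := funext fun y => (PP_deriv_aux hf).1 hm y x
    rw [this]
    simp [hm]
  · obtain ⟨k, rfl⟩ : ∃ k, m = k + 1 := ⟨m - 1, by omega⟩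
    rw [PP_euler (PP_deriv hf x) x, PP_euler hf x]
    push_cast
    ring

variable [FiniteDimensional ℝ V]

lemma PP_lap {m : ℕ} {f : V → ℝ} (hf : f ∈ PP V (m + 2)) : Δ f ∈ PP V m := by
  have : Δ f = ∑ i, (fun x => fderiv ℝ (fun y => fderiv ℝ f y (stdOrthonormalBasis ℝ V i)) x
      (stdOrthonormalBasis ℝ V i)) := by
    funext x
    rw [lap_eq (stdOrthonormalBasis ℝ V) f x, Finset.sum_apply]
    exact Finset.sum_congr rfl fun i _ => Hs_eq (PP_smooth hf) _ _ _
  rw [this]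
  refine Submodule.sum_mem _ fun i _ => ?_
  exact PP_deriv (PP_deriv hf _) _

lemma PP_lap_zero {m : ℕ} {f : V → ℝ} (hf : f ∈ PP V m) (hm : m ≤ 1) (x : V) : (Δ f) x = 0 := by
  rw [lap_eq (stdOrthonormalBasis ℝ V) f x]
  refine Finset.sum_eq_zero fun i _ => ?_
  rw [Hs_eq (PP_smooth hf)]
  have h1 := (PP_deriv_aux hf).2 (stdOrthonormalBasis ℝ V i)
  exact (PP_deriv_aux h1).1 (by omega) _ _

lemma DS_PP (n : ℕ) {m : ℕ} {f : V → ℝ} (hf : f ∈ PP V m) (x : V) :
    DS n f x = (Δ f) x - m * (m + n - 1) * f x := by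
  unfold DS
  rw [PP_euler hf, PP_euler2 hf]
  ring

lemma normsq_mem : (fun x : V => ‖x‖ ^ 2) ∈ PP V 2 := by
  have : (fun x : V => ‖x‖ ^ 2) = ∑ i, (fun x => ⟪stdOrthonormalBasis ℝ V i, x⟫ *
      (⟪stdOrthonormalBasis ℝ V i, x⟫ * (1:ℝ))) := by
    funext x
    rw [Finset.sum_apply, ← real_inner_self_eq_norm_sq,
      ← (stdOrthonormalBasis ℝ V).sum_inner_mul_inner x x]
    exact Finset.sum_congr rfl fun i _ => by rw [real_inner_comm, mul_one]
  rw [this]
  exact Submodule.sum_mem _ fun i _ => lin_mul _ (lin_mul _ (const_mem 1))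

lemma normpow_mul {m : ℕ} {f : V → ℝ} (hf : f ∈ PP V m) (j : ℕ) :
    (fun x => (‖x‖ ^ 2) ^ j * f x) ∈ PP V (m + 2 * j) := by
  induction j with
  | zero => simpa using hf
  | succ j ih =>
    have h := PP_mul normsq_mem ih
    have e : (fun x : V => ‖x‖ ^ 2 * ((‖x‖ ^ 2) ^ j * f x)) = fun x => (‖x‖ ^ 2) ^ (j + 1) * f x := by
      funext x; ring
    rw [e] at h
    rwa [show 2 + (m + 2 * j) = m + 2 * (j + 1) by ring] at h

lemma PP_fg (m : ℕ) : (PP V m).FG := by
  unfold PP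
  refine Submodule.FG.pow ?_ m
  unfold XX
  exact Submodule.FG.of_finite

instance (m : ℕ) : Module.Finite ℝ (PP V m) := Module.Finite.of_fg (PP_fg m)

/-- eigenvalues of the sphere for even degrees -/
def nu (n k : ℕ) : ℝ := 2 * k * (2 * k + n - 1)

lemma nu_zero (n : ℕ) : nu n 0 = 0 := by simp [nu]

lemma nu_strictMono {n : ℕ} (hn : 1 ≤ n) : StrictMono (nu n) := by
  refine strictMono_nat_of_lt_succ fun k => ?_
  unfold nu
  have h1 : (1:ℝ) ≤ n := by exact_mod_cast hn
  have h2 : (0:ℝ) ≤ k := Nat.cast_nonneg k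
  push_cast
  nlinarith

/-- spherical harmonics of degree `2k` -/
noncomputable def WW (V : Type*) [NormedAddCommGroup V] [InnerProductSpace ℝ V]
    [FiniteDimensional ℝ V] (n k : ℕ) : Submodule ℝ (V → ℝ) where
  carrier := {f | f ∈ PP V (2 * k) ∧ ∀ x : V, ‖x‖ = 1 → DS n f x = -nu n k * f x}
  add_mem' := by
    rintro f g ⟨hf, hf2⟩ ⟨hg, hg2⟩
    refine ⟨Submodule.add_mem _ hf hg, fun x hx => ?_⟩
    rw [DS_add n (PP_smooth hf) (PP_smooth hg), hf2 x hx, hg2 x hx]
    simp only [Pi.add_apply]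
    ring
  zero_mem' := by
    refine ⟨Submodule.zero_mem _, fun x _ => ?_⟩
    have h := DS_smul n (F := (0 : V → ℝ)) contDiff_const 0 x
    rw [zero_smul, zero_mul] at h
    rw [h]; simp
  smul_mem' := by
    rintro c f ⟨hf, hf2⟩
    refine ⟨Submodule.smul_mem _ c hf, fun x hx => ?_⟩
    rw [DS_smul n (PP_smooth hf), hf2 x hx]
    simp only [Pi.smul_apply, smul_eq_mul]
    ring

lemma WW_le (n k : ℕ) : WW V n k ≤ PP V (2 * k) := fun _ h => h.1

instance (n k : ℕ) : Module.Finite ℝ (WW V n k) :=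
  Submodule.finiteDimensional_of_le (WW_le n k)

lemma mem_WW_of_lap {n k : ℕ} {f : V → ℝ} (hf : f ∈ PP V (2 * k))
    (h : ∀ x : V, ‖x‖ = 1 → (Δ f) x = 0) : f ∈ WW V n k := by
  refine ⟨hf, fun x hx => ?_⟩
  rw [DS_PP n hf, h x hx]
  unfold nu
  push_cast
  ring

lemma DS_zero (n : ℕ) (x : V) : DS n (0 : V → ℝ) x = 0 := by
  have h := DS_smul n (F := (0 : V → ℝ)) contDiff_const 0 x
  rwa [zero_smul, zero_mul] at h

lemma DS_sum (n : ℕ) {ι : Type*} (s : Finset ι) (F : ι → V → ℝ)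
    (hF : ∀ i ∈ s, ContDiff ℝ ∞ (F i)) (x : V) :
    DS n (∑ i ∈ s, F i) x = ∑ i ∈ s, DS n (F i) x := by
  classical
  induction s using Finset.induction_on with
  | empty => simp [DS_zero]
  | insert a s ha ih =>
    rw [Finset.sum_insert ha, Finset.sum_insert ha, DS_add n (hF a (Finset.mem_insert_self a s)),
      ih fun i hi => hF i (Finset.mem_insert_of_mem hi)]
    have : (∑ i ∈ s, F i) = fun x => ∑ i ∈ s, F i x := by funext x; simp
    rw [this]
    exact ContDiff.sum fun i hi => hF i (Finset.mem_insert_of_mem hi)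

lemma sum_smooth {ι : Type*} (s : Finset ι) (F : ι → V → ℝ)
    (hF : ∀ i ∈ s, ContDiff ℝ ∞ (F i)) : ContDiff ℝ ∞ (∑ i ∈ s, F i) := by
  have : (∑ i ∈ s, F i) = fun x => ∑ i ∈ s, F i x := by funext x; simp
  rw [this]
  exact ContDiff.sum hF

/-- decomposition of even polynomials on the sphere into spherical harmonics -/
theorem decomp {n : ℕ} (hn1 : 1 ≤ n) (hn : Module.finrank ℝ V = n + 1) (k : ℕ) :
    ∀ f ∈ PP V (2 * k), ∃ c : ℕ → V → ℝ, (∀ i, c i ∈ WW V n i) ∧
      ∀ x : V, ‖x‖ = 1 → f x = ∑ i ∈ Finset.range (k + 1), c i x := by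
  induction k with
  | zero =>
    intro f hf
    refine ⟨fun i => if i = 0 then f else 0, fun i => ?_, fun x _ => by simp⟩
    by_cases hi : i = 0
    · subst hi
      simp only [if_true]
      exact mem_WW_of_lap hf fun x _ => PP_lap_zero hf (by norm_num) x
    · simp only [hi, if_false]
      exact Submodule.zero_mem _
  | succ k ih =>
    intro f hf
    have hf' : f ∈ PP V (2 * k + 2) := by
      rwa [show 2 * (k + 1) = 2 * k + 2 by ring] at hf
    obtain ⟨d, hd, hdx⟩ := ih (Δ f) (PP_lap hf')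
    have hν : ∀ i ∈ Finset.range (k + 1), nu n (k + 1) - nu n i ≠ 0 := by
      intro i hi
      have : nu n i < nu n (k + 1) := nu_strictMono hn1 (by simpa using hi)
      exact (sub_pos.2 this).ne'
    let b : ℕ → V → ℝ := fun i => (nu n (k + 1) - nu n i)⁻¹ • d i
    have hb : ∀ i, b i ∈ WW V n i := fun i => Submodule.smul_mem _ _ (hd i)
    let g : V → ℝ := ∑ i ∈ Finset.range (k + 1), fun x => (‖x‖ ^ 2) ^ (k + 1 - i) * b i x
    have hg : g ∈ PP V (2 * (k + 1)) := by
      refine Submodule.sum_mem _ fun i hi => ?_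
      have h := normpow_mul (hb i).1 (k + 1 - i)
      have hi' : i < k + 1 := by simpa using hi
      rwa [show 2 * i + 2 * (k + 1 - i) = 2 * (k + 1) by omega] at h
    have hgS : ∀ x : V, ‖x‖ = 1 → g x = (∑ i ∈ Finset.range (k + 1), b i) x := by
      intro x hx
      simp only [g, Finset.sum_apply, hx]
      simp
    have hbs : ∀ i ∈ Finset.range (k + 1), ContDiff ℝ ∞ (b i) := fun i _ => PP_smooth (hb i).1
    have hDg : ∀ x : V, ‖x‖ = 1 → DS n g x = ∑ i ∈ Finset.range (k + 1), -nu n i * b i x := by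
      intro x hx
      rw [DS_congr hn (PP_smooth hg) (sum_smooth _ _ hbs) hgS hx, DS_sum n _ _ hbs]
      exact Finset.sum_congr rfl fun i _ => (hb i).2 x hx
    have hfg : f + (-1 : ℝ) • g ∈ WW V n (k + 1) := by
      refine ⟨Submodule.add_mem _ hf (Submodule.smul_mem _ _ hg), fun x hx => ?_⟩
      rw [DS_add n (PP_smooth hf) (PP_smooth (Submodule.smul_mem _ (-1 : ℝ) hg)),
        DS_smul n (PP_smooth hg), hDg x hx, DS_PP n hf, hdx x hx]
      simp only [Pi.add_apply, Pi.smul_apply, smul_eq_mul, hgS x hx, Finset.sum_apply]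
      have e : ∀ i ∈ Finset.range (k + 1), d i x = (nu n (k + 1) - nu n i) * b i x := by
        intro i hi
        simp only [b, Pi.smul_apply, smul_eq_mul]
        rw [← mul_assoc, mul_inv_cancel₀ (hν i hi), one_mul]
      rw [Finset.sum_congr rfl e]
      have e2 : (2 * (k + 1) : ℕ) * ((2 * (k + 1) : ℕ) + (n:ℝ) - 1) = nu n (k + 1) := by
        unfold nu; push_cast; ring
      rw [e2]
      simp only [sub_mul, Finset.sum_sub_distrib, ← Finset.mul_sum, neg_mul,
        Finset.sum_neg_distrib]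
      ring
    refine ⟨fun i => if i < k + 1 then b i else if i = k + 1 then f + (-1 : ℝ) • g else 0,
      fun i => ?_, fun x hx => ?_⟩
    · by_cases h1 : i < k + 1
      · simp only [h1, if_true]; exact hb i
      · by_cases h2 : i = k + 1
        · subst h2
          simp only [lt_irrefl, if_false, if_true]
          exact hfg
        · simp only [h1, h2, if_false]; exact Submodule.zero_mem _
    · rw [Finset.sum_range_succ]
      have e : ∀ i ∈ Finset.range (k + 1),
          (if i < k + 1 then b i else if i = k + 1 then f + (-1 : ℝ) • g else 0) x = b i x := by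
        intro i hi
        rw [if_pos (by simpa using hi)]
      rw [Finset.sum_congr rfl e]
      simp only [lt_irrefl, if_false, if_true, Pi.add_apply, Pi.smul_apply, smul_eq_mul, hgS x hx,
        Finset.sum_apply]
      ring

end R235.VE
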