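import Pool.Agent.R235.VE.Self
import Pool.Agent.R235.VE.Poly

open scoped RealInnerProductSpace ContDiff
open InnerProductSpace Laplacian MeasureTheory

namespace R235.VE

variable {V : Type*} [NormedAddCommGroup V] [InnerProductSpace ℝ V] [FiniteDimensional ℝ V]

lemma exists_unit {n : ℕ} (hn : Module.finrank ℝ V = n + 1) (x : V) :
    ∃ u : V, ‖u‖ = 1 ∧ x = ‖x‖ • u := by
  rcases eq_or_ne x 0 with h | h
  · have : Nontrivial V := Module.nontrivial_of_finrank_pos (R := ℝ) (by omega)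
    obtain ⟨y, hy⟩ := exists_ne (0:V)
    refine ⟨nrm y, nrm_norm hy, by simp [h]⟩
  · refine ⟨nrm x, nrm_norm h, ?_⟩
    unfold nrm
    rw [smul_smul, mul_inv_cancel₀ (norm_ne_zero_iff.2 h), one_smul]

lemma PP_eq_zero {n : ℕ} (hn : Module.finrank ℝ V = n + 1) {m : ℕ} {f : V → ℝ} (hf : f ∈ PP V m)
    (h : ∀ x : V, ‖x‖ = 1 → f x = 0) : f = 0 := by
  funext x
  obtain ⟨u, hu, hx⟩ := exists_unit hn x
  rw [hx, PP_hom hf, h u hu]
  simp

variable [MeasurableSpace V] [BorelSpace V]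

lemma Iv_add_mul {f f' g : V → ℝ} (hf : Continuous f) (hf' : Continuous f') (hg : Continuous g) :
    Iv (fun x => (f x + f' x) * g x) = Iv (fun x => f x * g x) + Iv (fun x => f' x * g x) := by
  have h := Iv_add (F := fun x => f x * g x) (G := fun x => f' x * g x) (hf.mul hg) (hf'.mul hg)
  rw [← h]
  exact Iv_congr fun x _ => by ring

lemma Iv_sub_mul {f f' g : V → ℝ} (hf : Continuous f) (hf' : Continuous f') (hg : Continuous g) :
    Iv (fun x => (f x - f' x) * g x) = Iv (fun x => f x * g x) - Iv (fun x => f' x * g x) := by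
  have h := Iv_sub (F := fun x => f x * g x) (G := fun x => f' x * g x) (hf.mul hg) (hf'.mul hg)
  rw [← h]
  exact Iv_congr fun x _ => by ring

lemma Iv_mul_add {f g g' : V → ℝ} (hf : Continuous f) (hg : Continuous g) (hg' : Continuous g') :
    Iv (fun x => f x * (g x + g' x)) = Iv (fun x => f x * g x) + Iv (fun x => f x * g' x) := by
  have h := Iv_add (F := fun x => f x * g x) (G := fun x => f x * g' x) (hf.mul hg) (hf.mul hg')
  rw [← h]
  exact Iv_congr fun x _ => by ring

lemma Iv_mul_sub {f g g' : V → ℝ} (hf : Continuous f) (hg : Continuous g) (hg' : Continuous g') :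
    Iv (fun x => f x * (g x - g' x)) = Iv (fun x => f x * g x) - Iv (fun x => f x * g' x) := by
  have h := Iv_sub (F := fun x => f x * g x) (G := fun x => f x * g' x) (hf.mul hg) (hf.mul hg')
  rw [← h]
  exact Iv_congr fun x _ => by ring

lemma eig_orth {n : ℕ} (hn : Module.finrank ℝ V = n + 1) {F G : V → ℝ} (hF : ContDiff ℝ ∞ F)
    (hG : ContDiff ℝ ∞ G) {a b : ℝ} (hab : a ≠ b) (h1 : ∀ x : V, ‖x‖ = 1 → DS n F x = -a * F x)
    (h2 : ∀ x : V, ‖x‖ = 1 → DS n G x = -b * G x) : Iv (fun x => F x * G x) = 0 := by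
  have h := Iv_DS hn hF hG
  have e1 : Iv (fun x => DS n F x * G x) = -a * Iv (fun x => F x * G x) := by
    rw [← Iv_smul]
    exact Iv_congr fun x hx => by rw [h1 x hx]; ring
  have e2 : Iv (fun x => F x * DS n G x) = -b * Iv (fun x => F x * G x) := by
    rw [← Iv_smul]
    exact Iv_congr fun x hx => by rw [h2 x hx]; ring
  rw [e1, e2] at h
  have h3 : (b - a) * Iv (fun x => F x * G x) = 0 := by linarith
  rcases mul_eq_zero.1 h3 with h4 | h4
  · exact absurd (sub_eq_zero.1 h4).symm hab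
  · exact h4

/-- uniform approximability on the sphere by even polynomials -/
def Approx (G : V → ℝ) : Prop :=
  ∀ ε : ℝ, 0 < ε → ∃ k : ℕ, ∃ h ∈ PP V (2 * k), ∀ x : V, ‖x‖ = 1 → |G x - h x| ≤ ε

lemma orth_all {n : ℕ} (hn1 : 1 ≤ n) (hn : Module.finrank ℝ V = n + 1) {D : V → ℝ}
    (hD : Continuous D) (ha : Approx D)
    (ho : ∀ i, ∀ h ∈ WW V n i, Iv (fun x => D x * h x) = 0) : ∀ x : V, ‖x‖ = 1 → D x = 0 := by
  apply Iv_sq_eq_zero hD
  have h1 : ∀ k, ∀ h ∈ PP V (2 * k), Iv (fun x => D x * h x) = 0 := by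
    intro k h hh
    obtain ⟨c, hc, hx⟩ := decomp hn1 hn k h hh
    rw [Iv_congr (G := fun x => ∑ i ∈ Finset.range (k + 1), D x * c i x), Iv_sum]
    · exact Finset.sum_eq_zero fun i _ => ho i _ (hc i)
    · exact fun i _ => hD.mul (PP_smooth (hc i).1).continuous
    · intro x h2
      rw [hx x h2, Finset.mul_sum]
  have h0 : 0 ≤ Iv (fun x => D x * D x) := Iv_nonneg fun x _ => mul_self_nonneg _
  have hK : 0 ≤ Iv (fun x => |D x|) := Iv_nonneg fun x _ => abs_nonneg _
  have h2 : ∀ ε : ℝ, 0 < ε → Iv (fun x => D x * D x) ≤ ε * Iv (fun x => |D x|) := by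
    intro ε hε
    obtain ⟨k, h, hh, hx⟩ := ha ε hε
    have hhc := (PP_smooth hh).continuous
    have e := Iv_mul_sub hD hD hhc
    rw [h1 k h hh, sub_zero] at e
    rw [← Iv_smul, ← e]
    refine Iv_mono (hD.mul (hD.sub hhc)) (continuous_const.mul hD.abs) fun x hx1 => ?_
    calc D x * (D x - h x) ≤ |D x * (D x - h x)| := le_abs_self _
      _ = |D x| * |D x - h x| := abs_mul _ _
      _ ≤ |D x| * ε := mul_le_mul_of_nonneg_left (hx x hx1) (abs_nonneg _)
      _ = ε * |D x| := mul_comm _ _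
  by_contra hne
  have hpos : 0 < Iv (fun x => D x * D x) := lt_of_le_of_ne h0 (Ne.symm hne)
  have h3 := h2 (Iv (fun x => D x * D x) / (2 * (Iv (fun x => |D x|) + 1))) (by positivity)
  have h4 : Iv (fun x => D x * D x) / (2 * (Iv (fun x => |D x|) + 1)) * Iv (fun x => |D x|)
      < Iv (fun x => D x * D x) := by
    rw [div_mul_eq_mul_div, div_lt_iff₀ (by positivity)]
    nlinarith
  linarith

omit [MeasurableSpace V] [BorelSpace V] in
lemma Approx.sub_PP {n : ℕ} (hn : Module.finrank ℝ V = n + 1) {G e : V → ℝ} (hG : Approx G)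
    {m : ℕ} (he : e ∈ PP V (2 * m)) :
    Approx (fun x => G x - e x) := by
  intro ε hε
  obtain ⟨k, h, hh, hx⟩ := hG ε hε
  have a1 := normpow_mul hh m
  have a2 := normpow_mul he k
  rw [show 2 * k + 2 * m = 2 * (k + m) by ring] at a1
  rw [show 2 * m + 2 * k = 2 * (k + m) by ring] at a2
  refine ⟨k + m, _, Submodule.sub_mem _ a1 a2, fun x hx1 => ?_⟩
  have := hx x hx1
  simp only [Pi.sub_apply, hx1]
  norm_num
  exact this

/-- eigenfunctions with an eigenvalue outside the list vanish -/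
theorem classify_none {n : ℕ} (hn1 : 1 ≤ n) (hn : Module.finrank ℝ V = n + 1) {G : V → ℝ}
    (hG : ContDiff ℝ ∞ G) (ha : Approx G) {ν : ℝ}
    (h1 : ∀ x : V, ‖x‖ = 1 → DS n G x = -ν * G x) (hν : ∀ m, ν ≠ nu n m) :
    ∀ x : V, ‖x‖ = 1 → G x = 0 :=
  orth_all hn1 hn hG.continuous ha fun i _ hh =>
    eig_orth hn hG (PP_smooth hh.1) (hν i) h1 hh.2

/-- eigenfunctions for a listed eigenvalue are spherical harmonics -/
theorem classify {n : ℕ} (hn1 : 1 ≤ n) (hn : Module.finrank ℝ V = n + 1) {G : V → ℝ}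
    (hG : ContDiff ℝ ∞ G) (ha : Approx G) {m : ℕ}
    (h1 : ∀ x : V, ‖x‖ = 1 → DS n G x = -nu n m * G x) :
    ∃ e ∈ WW V n m, ∀ x : V, ‖x‖ = 1 → G x = e x := by
  have hc : ∀ f : WW V n m, Continuous (f : V → ℝ) := fun f => (PP_smooth f.2.1).continuous
  let T : WW V n m →ₗ[ℝ] Module.Dual ℝ (WW V n m) :=
    LinearMap.mk₂ ℝ (fun f g => Iv (fun x => (f : V → ℝ) x * (g : V → ℝ) x))
      (fun f f' g => Iv_add_mul (hc f) (hc f') (hc g))
      (fun c f g => by
        rw [smul_eq_mul, ← Iv_smul]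
        exact Iv_congr fun x _ => by simp [mul_assoc])
      (fun f g g' => Iv_mul_add (hc f) (hc g) (hc g'))
      (fun c f g => by
        rw [smul_eq_mul, ← Iv_smul]
        exact Iv_congr fun x _ => by simp only [Submodule.coe_smul, Pi.smul_apply, smul_eq_mul]; ring)
  have hT : Function.Injective T := by
    rw [← LinearMap.ker_eq_bot, LinearMap.ker_eq_bot']
    intro f hf
    have h2 : T f f = 0 := by rw [hf]; rfl
    have h3 := Iv_sq_eq_zero (hc f) h2
    exact Subtype.ext (PP_eq_zero hn f.2.1 h3)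
  have hTs : Function.Surjective T :=
    (LinearMap.injective_iff_surjective_of_finrank_eq_finrank
      (Subspace.dual_finrank_eq (K := ℝ) (V := WW V n m)).symm).1 hT
  let ℓ : Module.Dual ℝ (WW V n m) :=
    { toFun := fun g => Iv (fun x => G x * (g : V → ℝ) x)
      map_add' := fun g g' => Iv_mul_add hG.continuous (hc g) (hc g')
      map_smul' := fun c g => by
        simp only [RingHom.id_apply, smul_eq_mul]
        rw [← Iv_smul]
        exact Iv_congr fun x _ => by simp only [Submodule.coe_smul, Pi.smul_apply, smul_eq_mul]; ring }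
  obtain ⟨e, he⟩ := hTs ℓ
  refine ⟨e, e.2, fun x hx => ?_⟩
  have key := orth_all (D := fun x => G x - (e : V → ℝ) x) hn1 hn (hG.continuous.sub (hc e))
    (ha.sub_PP hn e.2.1) ?_ x hx
  · exact sub_eq_zero.1 key
  · intro i h hh
    have hhc := (PP_smooth hh.1).continuous
    have e1 : Iv (fun x => (G x - (e : V → ℝ) x) * h x)
        = Iv (fun x => G x * h x) - Iv (fun x => (e : V → ℝ) x * h x) :=
      Iv_sub_mul hG.continuous (hc e) hhc
    rw [e1]
    rcases eq_or_ne m i with hmi | hmi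
    · subst hmi
      have h5 := LinearMap.congr_fun he ⟨h, hh⟩
      have h6 : Iv (fun x => (e : V → ℝ) x * h x) = Iv (fun x => G x * h x) := h5
      rw [h6, sub_self]
    · have hν : nu n m ≠ nu n i := fun hh => hmi ((nu_strictMono hn1).injective hh)
      rw [eig_orth hn hG (PP_smooth hh.1) hν h1 hh.2,
        eig_orth hn (PP_smooth e.2.1) (PP_smooth hh.1) hν e.2.2 hh.2, sub_zero]

end R235.VE
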