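import Mathlib

/-!
Definitions: closed embedded submanifolds of a Euclidean space, geodesics, minimality in the unit
sphere, the closed eigenvalue problem of the Laplace-Beltrami operator, the spectrum.
-/

open scoped RealInnerProductSpace ContDiff

namespace R235.VE

variable {E : Type*} [NormedAddCommGroup E] [InnerProductSpace ℝ E]

/-- `M ⊆ E` is an embedded smooth `n`-dimensional submanifold without boundary: near each of its
points it is the image of an open set of `ℝⁿ` under a smooth map with a smooth left inverse. -/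
def IsSubmanifold (n : ℕ) (M : Set E) : Prop :=
  ∀ p ∈ M, ∃ (U : Set (EuclideanSpace ℝ (Fin n))) (W : Set E)
    (φ : EuclideanSpace ℝ (Fin n) → E) (ψ : E → EuclideanSpace ℝ (Fin n)),
    IsOpen U ∧ IsOpen W ∧ p ∈ W ∧ ContDiffOn ℝ ∞ φ U ∧ ContDiffOn ℝ ∞ ψ W ∧
    φ '' U = M ∩ W ∧ ∀ u ∈ U, ψ (φ u) = u

/-- A smooth curve lying in `M`. -/
def CurveIn (M : Set E) (γ : ℝ → E) : Prop := ContDiff ℝ ∞ γ ∧ ∀ t, γ t ∈ M

/-- Tangent vectors of `M` at `p`: the velocities at `p` of the smooth curves in `M`. -/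
def TangentVec (M : Set E) (p v : E) : Prop := ∃ γ, CurveIn M γ ∧ γ 0 = p ∧ deriv γ 0 = v

/-- Geodesics of `M` (for the induced metric): smooth curves in `M` whose acceleration is
everywhere normal to `M`. -/
def IsGeodesic (M : Set E) (γ : ℝ → E) : Prop :=
  CurveIn M γ ∧ ∀ t v, TangentVec M (γ t) v → ⟪deriv (deriv γ) t, v⟫ = 0

/-- `n` geodesics of `M` starting at `p` with orthonormal velocities. -/
def GeodesicFrame (n : ℕ) (M : Set E) (p : E) (γ : Fin n → ℝ → E) : Prop :=
  (∀ i, IsGeodesic M (γ i)) ∧ (∀ i, γ i 0 = p) ∧ Orthonormal ℝ (fun i => deriv (γ i) 0)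

/-- `M` lies in the unit sphere and is minimal there: the mean curvature vector of `M` in `E`,
which is the sum of the accelerations of the geodesics of a frame, has no component
tangent to the sphere. -/
def IsMinimalInSphere (n : ℕ) (M : Set E) : Prop :=
  M ⊆ Metric.sphere 0 1 ∧ ∀ p ∈ M, ∀ γ, GeodesicFrame n M p γ → ∀ w : E, ⟪p, w⟫ = 0 →
    ⟪∑ i, deriv (deriv (γ i)) 0, w⟫ = 0

lemma smooth_comp_curve {M : Set E} {F : E → ℝ} (hF : ContDiff ℝ ∞ F) {γ : ℝ → E}
    (h : CurveIn M γ) : ContDiff ℝ ∞ (F ∘ γ) := hF.comp h.1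

lemma deriv_smooth {g : ℝ → ℝ} (h : ContDiff ℝ ∞ g) : ContDiff ℝ ∞ (deriv g) := by
  exact (contDiff_infty_iff_deriv.1 h).2

/-- The eigenspace of the Laplace-Beltrami operator of `M` for the eigenvalue `μ`: smooth functions
`f` on `M` (restrictions of smooth functions `F` of the ambient space) with `Δ f = - μ f`, where
`Δ f (p)` is the sum of the second derivatives of `f` at `p` along the geodesics of a frame. -/
def eigenspace (n : ℕ) (M : Set E) (μ : ℝ) : Submodule ℝ (M → ℝ) where
  carrier := {f | ∃ F : E → ℝ, ContDiff ℝ ∞ F ∧ (∀ p : M, f p = F p) ∧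
    ∀ (p : M) (γ : Fin n → ℝ → E), GeodesicFrame n M p γ →
      ∑ i, deriv (deriv (F ∘ γ i)) 0 = -μ * F p}
  add_mem' := by
    rintro f g ⟨F, hF, hf, hF2⟩ ⟨G, hG, hg, hG2⟩
    refine ⟨F + G, hF.add hG, fun p => by simp [hf p, hg p], fun p γ hγ => ?_⟩
    have h1 : ∀ i, deriv (deriv ((F + G) ∘ γ i)) 0
        = deriv (deriv (F ∘ γ i)) 0 + deriv (deriv (G ∘ γ i)) 0 := by
      intro i
      have a := smooth_comp_curve hF (hγ.1 i).1
      have b := smooth_comp_curve hG (hγ.1 i).1
      have e1 : deriv ((F + G) ∘ γ i) = deriv (F ∘ γ i) + deriv (G ∘ γ i) := by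
        funext t
        exact deriv_add ((a.differentiable (by simp)) t) ((b.differentiable (by simp)) t)
      rw [e1]
      exact deriv_add (((deriv_smooth a).differentiable (by simp)) 0)
        (((deriv_smooth b).differentiable (by simp)) 0)
    rw [Finset.sum_congr rfl (fun i _ => h1 i), Finset.sum_add_distrib, hF2 p γ hγ, hG2 p γ hγ]
    simp only [Pi.add_apply]
    ring
  zero_mem' := by
    refine ⟨0, contDiff_const, fun p => rfl, fun p γ _ => ?_⟩
    have : ∀ i, ((0 : E → ℝ) ∘ γ i) = fun _ => 0 := fun i => rfl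
    simp [this]
  smul_mem' := by
    rintro c f ⟨F, hF, hf, hF2⟩
    refine ⟨c • F, contDiff_const.smul hF, fun p => by simp [hf p], fun p γ hγ => ?_⟩
    have h1 : ∀ i, deriv (deriv ((c • F) ∘ γ i)) 0 = c * deriv (deriv (F ∘ γ i)) 0 := by
      intro i
      have a := smooth_comp_curve hF (hγ.1 i).1
      have e1 : deriv ((c • F) ∘ γ i) = fun t => c * deriv (F ∘ γ i) t := by
        funext t
        exact deriv_const_mul c ((a.differentiable (by simp)) t)
      rw [e1]
      exact deriv_const_mul c (((deriv_smooth a).differentiable (by simp)) 0)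
    rw [Finset.sum_congr rfl (fun i _ => h1 i), ← Finset.mul_sum, hF2 p γ hγ]
    simp only [Pi.smul_apply, smul_eq_mul]
    ring

/-- `lam` lists the eigenvalues of the closed eigenvalue problem `Δ f = - λ f` on `M` in
nondecreasing order, each repeated according to its multiplicity. -/
def IsSpectrum (n : ℕ) (M : Set E) (lam : ℕ → ℝ) : Prop :=
  Monotone lam ∧ ∀ μ : ℝ, Module.Finite ℝ (eigenspace n M μ) ∧
    {j | lam j = μ}.encard = (Module.finrank ℝ (eigenspace n M μ) : ℕ∞)

end R235.VE
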