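import Mathlib

namespace R235.VE

section enum
variable (d : ℕ → ℕ)

/-- partial sums -/
def SS (k : ℕ) : ℕ := ∑ i ∈ Finset.range k, d i

variable {d}

lemma SS_succ (k : ℕ) : SS d (k + 1) = SS d k + d k := Finset.sum_range_succ _ _

lemma SS_mono : Monotone (SS d) := monotone_nat_of_le_succ fun k => by rw [SS_succ]; omega

lemma le_SS (hd : ∀ k, 1 ≤ d k) (k : ℕ) : k ≤ SS d k := by
  induction k with
  | zero => simp
  | succ k ih => rw [SS_succ]; have := hd k; omega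

lemma ex_SS (hd : ∀ k, 1 ≤ d k) (j : ℕ) : ∃ k, j < SS d (k + 1) :=
  ⟨j, by have := le_SS hd (j + 1); omega⟩

/-- the block containing `j` -/
noncomputable def blk (hd : ∀ k, 1 ≤ d k) (j : ℕ) : ℕ := Nat.find (ex_SS hd j)

lemma blk_iff (hd : ∀ k, 1 ≤ d k) (j k : ℕ) : blk hd j = k ↔ SS d k ≤ j ∧ j < SS d (k + 1) := by
  unfold blk
  rw [Nat.find_eq_iff]
  constructor
  · rintro ⟨h1, h2⟩
    refine ⟨?_, h1⟩
    rcases Nat.eq_zero_or_pos k with h | h
    · subst h; simp [SS]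
    · have := h2 (k - 1) (by omega)
      rw [Nat.sub_add_cancel h] at this
      omega
  · rintro ⟨h1, h2⟩
    refine ⟨h2, fun m hm => ?_⟩
    have := SS_mono (d := d) (show m + 1 ≤ k by omega)
    omega

lemma blk_mono (hd : ∀ k, 1 ≤ d k) : Monotone (blk hd) := by
  intro i j hij
  exact Nat.find_min' _ (lt_of_le_of_lt hij (Nat.find_spec (ex_SS hd j)))

lemma blk_encard (hd : ∀ k, 1 ≤ d k) (k : ℕ) : {j | blk hd j = k}.encard = (d k : ℕ∞) := by
  have h : {j | blk hd j = k} = ((Finset.Ico (SS d k) (SS d (k + 1)) : Finset ℕ) : Set ℕ) := by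
    ext j
    simp [blk_iff]
  rw [h, Set.encard_coe_eq_coe_finsetCard, Nat.card_Ico, SS_succ]
  simp

end enum

/-- the arithmetic inequality -/
lemma key_ineq {n : ℕ} (hn : 6 ≤ n) {l : ℝ} (hl : l = 2 * n * (n + 3) / (n + 1)) :
    ((n:ℝ) + 3) * n + (n:ℝ) ^ 2 / l + (n:ℝ) ^ 2 < n * l := by
  obtain ⟨m, rfl⟩ : ∃ m, n = m + 6 := ⟨n - 6, by omega⟩
  have hm : (0:ℝ) ≤ m := Nat.cast_nonneg m
  push_cast at hl ⊢
  have h1 : ((m:ℝ) + 6) ^ 2 / l = (m + 6) * (m + 7) / (2 * (m + 9)) := by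
    rw [hl]
    have : (0:ℝ) < m + 6 := by positivity
    field_simp
    ring
  rw [h1, hl]
  have e : ((m:ℝ) + 6) * (2 * (m + 6) * (m + 6 + 3) / (m + 6 + 1))
      - (((m:ℝ) + 6 + 3) * (m + 6) + (m + 6) * (m + 7) / (2 * (m + 9)) + (m + 6) ^ 2)
      = (m + 6) * (m ^ 2 + 10 * m + 5) / (2 * (m + 7) * (m + 9)) := by
    field_simp
    ring
  have h2 : (0:ℝ) < (m + 6) * (m ^ 2 + 10 * m + 5) / (2 * (m + 7) * (m + 9)) := by positivity
  linarith

end R235.VE
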