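import Pool.Agent.R235.VE.Poly

open scoped RealInnerProductSpace ContDiff
open InnerProductSpace Laplacian

namespace R235.VE

variable {V : Type*} [NormedAddCommGroup V] [InnerProductSpace ℝ V] [FiniteDimensional ℝ V]

/-- a complex coordinate -/
noncomputable def Zc (a c : V) : V →L[ℝ] ℂ :=
  (innerSL ℝ a).smulRight (1:ℂ) + (innerSL ℝ c).smulRight Complex.I

omit [FiniteDimensional ℝ V] in
lemma Zc_apply (a c x : V) : Zc a c x = (⟪a, x⟫ : ℂ) + (⟪c, x⟫ : ℂ) * Complex.I := by
  simp [Zc]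

omit [FiniteDimensional ℝ V] in
lemma Zpow_mem (a c : V) (m : ℕ) :
    (fun x => ((Zc a c x) ^ m).re) ∈ PP V m ∧ (fun x => ((Zc a c x) ^ m).im) ∈ PP V m := by
  induction m with
  | zero =>
    constructor
    · simpa using const_mem (V := V) 1
    · simpa using const_mem (V := V) 0
  | succ m ih =>
    have e1 : (fun x => ((Zc a c x) ^ (m + 1)).re)
        = (fun x => ⟪a, x⟫ * ((Zc a c x) ^ m).re) - (fun x => ⟪c, x⟫ * ((Zc a c x) ^ m).im) := by
      funext x
      rw [pow_succ', Complex.mul_re]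
      simp [Zc_apply]
    have e2 : (fun x => ((Zc a c x) ^ (m + 1)).im)
        = (fun x => ⟪a, x⟫ * ((Zc a c x) ^ m).im) + (fun x => ⟪c, x⟫ * ((Zc a c x) ^ m).re) := by
      funext x
      rw [pow_succ', Complex.mul_im]
      simp [Zc_apply]
    rw [e1, e2]
    exact ⟨Submodule.sub_mem _ (lin_mul a ih.1) (lin_mul c ih.2),
      Submodule.add_mem _ (lin_mul a ih.2) (lin_mul c ih.1)⟩

omit [FiniteDimensional ℝ V] in
lemma reZ_fderiv (a c : V) (κ : ℂ) (k : ℕ) (x v : V) :
    fderiv ℝ (fun y => (κ * (Zc a c y) ^ k).re) x v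
      = (κ * k * (Zc a c x) ^ (k - 1) * Zc a c v).re := by
  have h1 : HasFDerivAt (fun y => Zc a c y) (Zc a c) x := (Zc a c).hasFDerivAt
  have h2 := (h1.pow k).const_mul κ
  have h3 := Complex.reCLM.hasFDerivAt.comp x h2
  have h4 : fderiv ℝ (fun y => (κ * (Zc a c y) ^ k).re) x = _ := h3.fderiv
  rw [h4]
  simp only [ContinuousLinearMap.comp_apply, Complex.reCLM_apply, ContinuousLinearMap.coe_smul',
    Pi.smul_apply, smul_eq_mul, nsmul_eq_mul]
  congr 1
  ring

lemma lap_reZ {a c : V} (ha : ‖a‖ = 1) (hc : ‖c‖ = 1) (hac : ⟪a, c⟫ = 0) (m : ℕ) (x : V) :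
    (Δ (fun x => ((Zc a c x) ^ m).re)) x = 0 := by
  set b := stdOrthonormalBasis ℝ V
  rw [lap_eq b]
  have hs : ∀ v, Hs (fun x => ((Zc a c x) ^ m).re) x v v
      = ((m : ℂ) * ((m - 1 : ℕ) : ℂ) * (Zc a c x) ^ (m - 1 - 1) * (Zc a c v * Zc a c v)).re := by
    intro v
    rw [Hs_eq (PP_smooth (Zpow_mem a c m).1)]
    have e : (fun y => fderiv ℝ (fun x => ((Zc a c x) ^ m).re) y v)
        = fun y => (((m : ℂ) * Zc a c v) * (Zc a c y) ^ (m - 1)).re := by
      funext y
      have := reZ_fderiv a c 1 m y v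
      simp only [one_mul] at this
      rw [this]
      congr 1
      ring
    rw [e, reZ_fderiv]
    congr 1
    ring
  simp only [hs]
  rw [← Complex.re_sum, ← Finset.mul_sum]
  have hz : ∑ i, Zc a c (b i) * Zc a c (b i) = 0 := by
    have h1 : ∑ i, ⟪a, b i⟫ * ⟪a, b i⟫ = 1 := by
      have := b.sum_inner_mul_inner a a
      rw [real_inner_self_eq_norm_sq, ha] at this
      rw [show (1:ℝ) = 1 ^ 2 by norm_num, ← this]
      exact Finset.sum_congr rfl fun i _ => by rw [real_inner_comm (b i) a]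
    have h2 : ∑ i, ⟪c, b i⟫ * ⟪c, b i⟫ = 1 := by
      have := b.sum_inner_mul_inner c c
      rw [real_inner_self_eq_norm_sq, hc] at this
      rw [show (1:ℝ) = 1 ^ 2 by norm_num, ← this]
      exact Finset.sum_congr rfl fun i _ => by rw [real_inner_comm (b i) c]
    have h3 : ∑ i, ⟪a, b i⟫ * ⟪c, b i⟫ = 0 := by
      have := b.sum_inner_mul_inner a c
      rw [hac] at this
      rw [← this]
      exact Finset.sum_congr rfl fun i _ => by rw [real_inner_comm (b i) c]
    have h4 : ∀ i, Zc a c (b i) * Zc a c (b i)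
        = ((⟪a, b i⟫ * ⟪a, b i⟫ - ⟪c, b i⟫ * ⟪c, b i⟫ : ℝ) : ℂ)
          + ((2 * (⟪a, b i⟫ * ⟪c, b i⟫) : ℝ) : ℂ) * Complex.I := by
      intro i
      rw [Zc_apply]
      push_cast
      ring_nf
      rw [Complex.I_sq]
      ring
    simp only [h4]
    rw [Finset.sum_add_distrib, ← Finset.sum_mul, ← Complex.ofReal_sum, ← Complex.ofReal_sum,
      Finset.sum_sub_distrib, ← Finset.mul_sum, h1, h2, h3]
    simp
  rw [hz]
  simp

/-- lower bound for the dimension of the spaces of harmonics -/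
theorem le_finrank_WW {n : ℕ} (hn : Module.finrank ℝ V = n + 1) {k : ℕ} (hk : 1 ≤ k) :
    n ≤ Module.finrank ℝ (WW V n k) := by
  classical
  let b : OrthonormalBasis (Fin (n + 1)) ℝ V := (stdOrthonormalBasis ℝ V).reindex (finCongr hn)
  have hb : ∀ i, ‖b i‖ = 1 := b.orthonormal.1
  have hbo : ∀ i j, ⟪b i, b j⟫ = if i = j then (1:ℝ) else 0 := fun i j => by
    rw [b.inner_eq_ite]
  let u : Fin n → WW V n k := fun j => ⟨fun x => ((Zc (b 0) (b j.succ) x) ^ (2 * k)).re,
    mem_WW_of_lap (Zpow_mem _ _ _).1 fun x _ => lap_reZ (hb _) (hb _)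
      (by rw [hbo, if_neg (Fin.succ_ne_zero j).symm]) _ _⟩
  have hu : ∀ i j : Fin n, (u j : V → ℝ) (b i.succ) = if i = j then (-1) ^ k else 0 := by
    intro i j
    show ((Zc (b 0) (b j.succ) (b i.succ)) ^ (2 * k)).re = _
    rw [Zc_apply, hbo, hbo, if_neg (Fin.succ_ne_zero i).symm]
    rcases eq_or_ne i j with h | h
    · subst h
      simp only [if_true, Complex.ofReal_zero, Complex.ofReal_one, zero_add, one_mul]
      rw [pow_mul, Complex.I_sq]
      norm_cast
    · have h' : ¬ (j.succ = i.succ) := fun hh => h (Fin.succ_injective _ hh).symm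
      rw [if_neg h', if_neg h]
      have : 2 * k ≠ 0 := by omega
      simp [this]
  have hli : LinearIndependent ℝ u := by
    rw [Fintype.linearIndependent_iff]
    intro g hg i
    have h1 := congrFun (congrArg (Subtype.val) hg) (b i.succ)
    simp only [Submodule.coe_sum, Submodule.coe_smul, Finset.sum_apply, Pi.smul_apply,
      smul_eq_mul, hu] at h1
    simp only [mul_ite, mul_zero, Finset.sum_ite_eq, Finset.mem_univ, if_true] at h1
    rcases mul_eq_zero.1 h1 with h2 | h2
    · exact h2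
    · exact absurd h2 (pow_ne_zero _ (by norm_num))
  simpa using hli.fintype_card_le_finrank

theorem finrank_WW_zero (n : ℕ) : Module.finrank ℝ (WW V n 0) = 1 := by
  let one : WW V n 0 := ⟨fun _ => 1, mem_WW_of_lap (const_mem 1)
    fun x _ => PP_lap_zero (const_mem 1) (by norm_num) x⟩
  refine finrank_eq_one one ?_ ?_
  · intro h
    have := congrFun (congrArg Subtype.val h) 0
    simp [one] at this
  · intro w
    have hw : (w : V → ℝ) ∈ PP V 0 := w.2.1
    unfold PP at hw
    rw [pow_zero] at hw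
    obtain ⟨r, hr⟩ := Submodule.mem_one.1 hw
    refine ⟨r, Subtype.ext ?_⟩
    funext x
    rw [← hr]
    simp [one]

end R235.VE
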