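import Pool.Agent.R235.VE.Defs

open scoped RealInnerProductSpace ContDiff
open InnerProductSpace Laplacian

namespace R235.VE

section jets
variable {V : Type*} [NormedAddCommGroup V] [InnerProductSpace ℝ V]

/-- Hessian -/
noncomputable def Hs (F : V → ℝ) (x v w : V) : ℝ := fderiv ℝ (fderiv ℝ F) x v w

lemma hasDerivAt_of_smooth {γ : ℝ → V} (h : ContDiff ℝ ∞ γ) (t : ℝ) :
    HasDerivAt γ (deriv γ t) t := ((h.differentiable (by simp)) t).hasDerivAt

lemma deriv_smoothV {g : ℝ → V} (h : ContDiff ℝ ∞ g) : ContDiff ℝ ∞ (deriv g) :=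
  (contDiff_infty_iff_deriv.1 h).2

lemma fderiv_smooth {F : V → ℝ} (h : ContDiff ℝ ∞ F) : ContDiff ℝ ∞ (fderiv ℝ F) :=
  (contDiff_infty_iff_fderiv.1 h).2

lemma fderiv_apply_smooth {F : V → ℝ} (h : ContDiff ℝ ∞ F) {g : V → V} (hg : ContDiff ℝ ∞ g) :
    ContDiff ℝ ∞ (fun x => fderiv ℝ F x (g x)) :=
  (fderiv_smooth h).clm_apply hg

lemma hasFDerivAt_of_smooth {F : V → ℝ} (h : ContDiff ℝ ∞ F) (x : V) :
    HasFDerivAt F (fderiv ℝ F x) x := ((h.differentiable (by simp)) x).hasFDerivAt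

/-- second derivative of a smooth function along a smooth curve -/
lemma second_deriv {F : V → ℝ} (hF : ContDiff ℝ ∞ F) {γ : ℝ → V} (hγ : ContDiff ℝ ∞ γ) (t : ℝ) :
    deriv (deriv (F ∘ γ)) t = Hs F (γ t) (deriv γ t) (deriv γ t)
      + fderiv ℝ F (γ t) (deriv (deriv γ) t) := by
  have e1 : deriv (F ∘ γ) = fun s => fderiv ℝ F (γ s) (deriv γ s) := by
    funext s
    exact ((hasFDerivAt_of_smooth hF (γ s)).comp_hasDerivAt s (hasDerivAt_of_smooth hγ s)).deriv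
  rw [e1]
  have h1 : HasDerivAt (fun s => fderiv ℝ F (γ s))
      (fderiv ℝ (fderiv ℝ F) (γ t) (deriv γ t)) t := by
    have : HasFDerivAt (fderiv ℝ F) (fderiv ℝ (fderiv ℝ F) (γ t)) (γ t) :=
      (((fderiv_smooth hF).differentiable (by simp)) (γ t)).hasFDerivAt
    exact this.comp_hasDerivAt t (hasDerivAt_of_smooth hγ t)
  have h2 := h1.clm_apply (hasDerivAt_of_smooth (deriv_smoothV hγ) t)
  exact h2.deriv

/-- two curves with the same 2-jet -/
lemma second_deriv_congr {F : V → ℝ} (hF : ContDiff ℝ ∞ F) {γ δ : ℝ → V} (hγ : ContDiff ℝ ∞ γ)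
    (hδ : ContDiff ℝ ∞ δ) (t : ℝ) (h0 : γ t = δ t) (h1 : deriv γ t = deriv δ t)
    (h2 : deriv (deriv γ) t = deriv (deriv δ) t) :
    deriv (deriv (F ∘ γ)) t = deriv (deriv (F ∘ δ)) t := by
  rw [second_deriv hF hγ, second_deriv hF hδ, h0, h1, h2]

/-- great circle through `x` with velocity `w` (unit speed parameter rescaled). -/
noncomputable def gc (x w : V) (t : ℝ) : V := Real.cos (‖w‖ * t) • x + (Real.sin (‖w‖ * t) * ‖w‖⁻¹) • w

lemma gc_smooth (x w : V) : ContDiff ℝ ∞ (gc x w) := by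
  unfold gc
  fun_prop

lemma gc_zero (x w : V) : gc x w 0 = x := by simp [gc]

lemma gc_hasDerivAt (x w : V) (t : ℝ) :
    HasDerivAt (gc x w) ((-(‖w‖ * Real.sin (‖w‖ * t))) • x + (Real.cos (‖w‖ * t) * (‖w‖ * ‖w‖⁻¹)) • w) t := by
  have h0 : HasDerivAt (fun t : ℝ => ‖w‖ * t) ‖w‖ t := by
    simpa using (hasDerivAt_id t).const_mul ‖w‖
  have h1 : HasDerivAt (fun t : ℝ => Real.cos (‖w‖ * t)) (-(‖w‖ * Real.sin (‖w‖ * t))) t := by
    have := (Real.hasDerivAt_cos (‖w‖ * t)).comp t h0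
    exact this.congr_deriv (by ring)
  have h2 : HasDerivAt (fun t : ℝ => Real.sin (‖w‖ * t) * ‖w‖⁻¹)
      (Real.cos (‖w‖ * t) * (‖w‖ * ‖w‖⁻¹)) t := by
    have := ((Real.hasDerivAt_sin (‖w‖ * t)).comp t h0).mul_const ‖w‖⁻¹
    exact this.congr_deriv (by ring)
  exact (h1.smul_const x).add (h2.smul_const w)

lemma gc_deriv (x w : V) : deriv (gc x w) =
    fun t => (-(‖w‖ * Real.sin (‖w‖ * t))) • x + (Real.cos (‖w‖ * t) * (‖w‖ * ‖w‖⁻¹)) • w :=
  funext fun t => (gc_hasDerivAt x w t).deriv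

lemma norm_mul_inv_smul (w : V) : (‖w‖ * ‖w‖⁻¹) • w = w := by
  rcases eq_or_ne w 0 with h | h
  · simp [h]
  · rw [mul_inv_cancel₀ (norm_ne_zero_iff.2 h), one_smul]

lemma gc_deriv_zero (x w : V) : deriv (gc x w) 0 = w := by
  rw [gc_deriv]
  simp only [mul_zero, Real.sin_zero, neg_zero, zero_smul, Real.cos_zero, one_mul, zero_add]
  exact norm_mul_inv_smul w

lemma gc_deriv2 (x w : V) (t : ℝ) : deriv (deriv (gc x w)) t = -(‖w‖ ^ 2) • gc x w t := by
  rw [gc_deriv]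
  have h0 : HasDerivAt (fun t : ℝ => ‖w‖ * t) ‖w‖ t := by
    simpa using (hasDerivAt_id t).const_mul ‖w‖
  have h1 : HasDerivAt (fun t : ℝ => -(‖w‖ * Real.sin (‖w‖ * t)))
      (-(‖w‖ * (‖w‖ * Real.cos (‖w‖ * t)))) t := by
    have := (((Real.hasDerivAt_sin (‖w‖ * t)).comp t h0).const_mul ‖w‖).neg
    exact this.congr_deriv (by ring)
  have h2 : HasDerivAt (fun t : ℝ => Real.cos (‖w‖ * t) * (‖w‖ * ‖w‖⁻¹))
      (-(‖w‖ * Real.sin (‖w‖ * t)) * (‖w‖ * ‖w‖⁻¹)) t := by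
    have := ((Real.hasDerivAt_cos (‖w‖ * t)).comp t h0).mul_const (‖w‖ * ‖w‖⁻¹)
    exact this.congr_deriv (by ring)
  have h3 := ((h1.smul_const x).add (h2.smul_const w)).deriv
  have e : (fun t => (-(‖w‖ * Real.sin (‖w‖ * t))) • x + (Real.cos (‖w‖ * t) * (‖w‖ * ‖w‖⁻¹)) • w)
    = ((fun t => (-(‖w‖ * Real.sin (‖w‖ * t))) • x) +
      fun t => (Real.cos (‖w‖ * t) * (‖w‖ * ‖w‖⁻¹)) • w) := rfl
  rw [e, h3]
  unfold gc
  module

lemma gc_norm {x w : V} (hx : ‖x‖ = 1) (hxw : ⟪x, w⟫ = 0) (t : ℝ) : ‖gc x w t‖ = 1 := by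
  have h : ‖gc x w t‖ ^ 2 = 1 := by
    unfold gc
    rw [norm_add_sq_real, norm_smul, norm_smul, hx, inner_smul_left, inner_smul_right, hxw]
    rcases eq_or_ne w 0 with h | h
    · simp [h]
    · have hw : ‖w‖ ≠ 0 := norm_ne_zero_iff.2 h
      simp only [Real.norm_eq_abs, mul_one, sq_abs, mul_zero, add_zero]
      rw [mul_pow, sq_abs, mul_pow, inv_pow, mul_assoc, inv_mul_cancel₀ (pow_ne_zero 2 hw), mul_one]
      exact Real.cos_sq_add_sin_sq _
  have h2 : (0:ℝ) ≤ ‖gc x w t‖ := norm_nonneg _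
  nlinarith

lemma second_deriv_gc {F : V → ℝ} (hF : ContDiff ℝ ∞ F) (x w : V) :
    deriv (deriv (F ∘ gc x w)) 0 = Hs F x w w - ‖w‖ ^ 2 * fderiv ℝ F x x := by
  rw [second_deriv hF (gc_smooth x w), gc_deriv2, gc_deriv_zero, gc_zero, map_smul]
  simp only [smul_eq_mul]
  ring

end jets

section DS
variable {V : Type*} [NormedAddCommGroup V] [InnerProductSpace ℝ V] [FiniteDimensional ℝ V]

/-- the spherical Laplacian in terms of an extension; meaningful at unit vectors -/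
noncomputable def DS (n : ℕ) (F : V → ℝ) (x : V) : ℝ :=
  (Δ F) x - Hs F x x x - n * fderiv ℝ F x x

lemma lap_eq {ι : Type*} [Fintype ι] (b : OrthonormalBasis ι ℝ V) (F : V → ℝ) (x : V) :
    (Δ F) x = ∑ i, Hs F x (b i) (b i) := by
  rw [laplacian_eq_iteratedFDeriv_orthonormalBasis F b]
  refine Finset.sum_congr rfl fun i _ => ?_
  rw [iteratedFDeriv_two_apply]
  simp [Hs]

/-- completing an orthonormal family of `x^⊥` to an orthonormal basis -/
lemma exists_onb {n : ℕ} (hn : Module.finrank ℝ V = n + 1) {x : V} (hx : ‖x‖ = 1)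
    {e : Fin n → V} (he : Orthonormal ℝ e) (hxe : ∀ i, ⟪x, e i⟫ = 0) :
    ∃ b : OrthonormalBasis (Fin (n + 1)) ℝ V, b 0 = x ∧ ∀ i : Fin n, b i.succ = e i := by
  classical
  let v : Fin (n + 1) → V := Fin.cons x e
  have hv : Orthonormal ℝ v := by
    rw [orthonormal_iff_ite]
    intro i j
    refine Fin.cases ?_ (fun i => ?_) i <;> refine Fin.cases ?_ (fun j => ?_) j
    · simp [v, hx]
    · simp only [v, Fin.cons_zero, Fin.cons_succ, hxe j]
      rw [if_neg (Fin.succ_ne_zero j).symm]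
    · simp only [v, Fin.cons_zero, Fin.cons_succ]
      rw [real_inner_comm, hxe i, if_neg (Fin.succ_ne_zero i)]
    · simp only [v, Fin.cons_succ]
      rw [orthonormal_iff_ite.1 he i j]
      simp [Fin.succ_inj]
  have hc : Fintype.card (Fin (n + 1)) = Module.finrank ℝ V := by simp [hn]
  let B := basisOfOrthonormalOfCardEqFinrank hv hc
  have hB : (B : Fin (n + 1) → V) = v := coe_basisOfOrthonormalOfCardEqFinrank hv hc
  refine ⟨B.toOrthonormalBasis (by rw [hB]; exact hv), ?_, fun i => ?_⟩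
  · simp [hB, v]
  · simp [hB, v]

lemma sum_Hs {n : ℕ} (hn : Module.finrank ℝ V = n + 1) {x : V} (hx : ‖x‖ = 1)
    {e : Fin n → V} (he : Orthonormal ℝ e) (hxe : ∀ i, ⟪x, e i⟫ = 0) (F : V → ℝ) :
    ∑ i, Hs F x (e i) (e i) = (Δ F) x - Hs F x x x := by
  obtain ⟨b, hb0, hb⟩ := exists_onb hn hx he hxe
  rw [lap_eq b F x, Fin.sum_univ_succ, hb0]
  simp [hb]

/-- The spherical Laplacian as a sum of second derivatives along great circles. -/
lemma DS_eq_sum {n : ℕ} (hn : Module.finrank ℝ V = n + 1) {x : V} (hx : ‖x‖ = 1)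
    {e : Fin n → V} (he : Orthonormal ℝ e) (hxe : ∀ i, ⟪x, e i⟫ = 0) {F : V → ℝ}
    (hF : ContDiff ℝ ∞ F) :
    DS n F x = ∑ i, deriv (deriv (F ∘ gc x (e i))) 0 := by
  rw [Finset.sum_congr rfl (fun i _ => second_deriv_gc hF x (e i)), Finset.sum_sub_distrib,
    sum_Hs hn hx he hxe]
  have : ∀ i, ‖e i‖ = 1 := he.1
  simp [this, DS]

/-- existence of an orthonormal family in `x^⊥` -/
lemma exists_frame {n : ℕ} (hn : Module.finrank ℝ V = n + 1) {x : V} (hx : ‖x‖ = 1) :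
    ∃ e : Fin n → V, Orthonormal ℝ e ∧ ∀ i, ⟪x, e i⟫ = 0 := by
  have hx0 : x ≠ 0 := by rintro rfl; simp at hx
  have : Fact (Module.finrank ℝ V = n + 1) := ⟨hn⟩
  have hf : Module.finrank ℝ (ℝ ∙ x)ᗮ = n := Submodule.finrank_orthogonal_span_singleton hx0
  let b := (stdOrthonormalBasis ℝ (ℝ ∙ x)ᗮ).reindex (finCongr hf)
  refine ⟨fun i => (b i : V), ?_, fun i => ?_⟩
  · exact b.orthonormal.comp_linearIsometry (ℝ ∙ x)ᗮ.subtypeₗᵢ
  · exact (Submodule.mem_orthogonal_singleton_iff_inner_right.1 (b i).2)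

/-- the spherical Laplacian only depends on the values on the sphere -/
lemma DS_congr {n : ℕ} (hn : Module.finrank ℝ V = n + 1) {F G : V → ℝ}
    (hF : ContDiff ℝ ∞ F) (hG : ContDiff ℝ ∞ G) (h : ∀ x : V, ‖x‖ = 1 → F x = G x)
    {x : V} (hx : ‖x‖ = 1) : DS n F x = DS n G x := by
  obtain ⟨e, he, hxe⟩ := exists_frame hn hx
  rw [DS_eq_sum hn hx he hxe hF, DS_eq_sum hn hx he hxe hG]
  refine Finset.sum_congr rfl fun i _ => ?_
  have : F ∘ gc x (e i) = G ∘ gc x (e i) := funext fun t => h _ (gc_norm hx (hxe i) t)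
  rw [this]

lemma Hs_add {F G : V → ℝ} (hF : ContDiff ℝ ∞ F) (hG : ContDiff ℝ ∞ G) (x v w : V) :
    Hs (F + G) x v w = Hs F x v w + Hs G x v w := by
  have e1 : fderiv ℝ (F + G) = fderiv ℝ F + fderiv ℝ G := by
    funext y
    exact fderiv_add ((hF.differentiable (by simp)) y) ((hG.differentiable (by simp)) y)
  unfold Hs
  rw [e1, fderiv_add (((fderiv_smooth hF).differentiable (by simp)) x)
    (((fderiv_smooth hG).differentiable (by simp)) x)]
  simp

lemma Hs_smul {F : V → ℝ} (hF : ContDiff ℝ ∞ F) (c : ℝ) (x v w : V) :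
    Hs (c • F) x v w = c * Hs F x v w := by
  have e1 : fderiv ℝ (c • F) = c • fderiv ℝ F := by
    funext y
    exact fderiv_const_smul ((hF.differentiable (by simp)) y) c
  unfold Hs
  rw [e1, fderiv_const_smul (((fderiv_smooth hF).differentiable (by simp)) x) c]
  simp

lemma DS_add (n : ℕ) {F G : V → ℝ} (hF : ContDiff ℝ ∞ F) (hG : ContDiff ℝ ∞ G) (x : V) :
    DS n (F + G) x = DS n F x + DS n G x := by
  unfold DS
  rw [lap_eq (stdOrthonormalBasis ℝ V), lap_eq (stdOrthonormalBasis ℝ V) F,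
    lap_eq (stdOrthonormalBasis ℝ V) G, Hs_add hF hG]
  simp only [Hs_add hF hG]
  rw [Finset.sum_add_distrib, fderiv_add ((hF.differentiable (by simp)) x)
    ((hG.differentiable (by simp)) x)]
  simp only [ContinuousLinearMap.add_apply]
  ring

lemma DS_smul (n : ℕ) {F : V → ℝ} (hF : ContDiff ℝ ∞ F) (c : ℝ) (x : V) :
    DS n (c • F) x = c * DS n F x := by
  unfold DS
  rw [lap_eq (stdOrthonormalBasis ℝ V), lap_eq (stdOrthonormalBasis ℝ V) F, Hs_smul hF]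
  simp only [Hs_smul hF]
  rw [← Finset.mul_sum, fderiv_const_smul ((hF.differentiable (by simp)) x)]
  simp only [ContinuousLinearMap.smul_apply, smul_eq_mul]
  ring

end DS

end R235.VE
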