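import Pool.Agent.R235.VE.Jet

open scoped RealInnerProductSpace ContDiff
open InnerProductSpace Laplacian MeasureTheory

namespace R235.VE

variable {V : Type*} [NormedAddCommGroup V] [InnerProductSpace ℝ V] [FiniteDimensional ℝ V]
  [MeasurableSpace V] [BorelSpace V]

/-- radial projection to the unit sphere -/
noncomputable def nrm (x : V) : V := ‖x‖⁻¹ • x

/-- an open annulus -/
def Ann (V : Type*) [NormedAddCommGroup V] : Set V := {x : V | 1 / 2 < ‖x‖ ∧ ‖x‖ < 1}

/-- the rotation invariant integral over the sphere, as an integral over an annulus -/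
noncomputable def Iv (F : V → ℝ) : ℝ := ∫ x in Ann V, F (nrm x)

omit [InnerProductSpace ℝ V] [FiniteDimensional ℝ V] [MeasurableSpace V] [BorelSpace V] in
lemma isOpen_Ann : IsOpen (Ann V) := by
  have h1 : IsOpen {x : V | 1 / 2 < ‖x‖} := isOpen_lt continuous_const continuous_norm
  have h2 : IsOpen {x : V | ‖x‖ < 1} := isOpen_lt continuous_norm continuous_const
  exact h1.inter h2

omit [InnerProductSpace ℝ V] [FiniteDimensional ℝ V] [MeasurableSpace V] [BorelSpace V] in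
lemma ne_zero_of_Ann {x : V} (hx : x ∈ Ann V) : x ≠ 0 := by
  rintro rfl
  have := hx.1
  simp at this
  linarith

omit [FiniteDimensional ℝ V] [MeasurableSpace V] [BorelSpace V] in
lemma nrm_norm {x : V} (hx : x ≠ 0) : ‖nrm x‖ = 1 := by
  unfold nrm
  rw [norm_smul, norm_inv, norm_norm, inv_mul_cancel₀ (norm_ne_zero_iff.2 hx)]

omit [FiniteDimensional ℝ V] [MeasurableSpace V] [BorelSpace V] in
lemma nrm_norm_Ann {x : V} (hx : x ∈ Ann V) : ‖nrm x‖ = 1 := nrm_norm (ne_zero_of_Ann hx)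

omit [FiniteDimensional ℝ V] [MeasurableSpace V] [BorelSpace V] in
lemma nrm_cont : ContinuousOn (nrm : V → V) (Ann V) := by
  unfold nrm
  refine ContinuousOn.smul (ContinuousOn.inv₀ continuous_norm.continuousOn fun x hx => ?_)
    continuousOn_id
  exact norm_ne_zero_iff.2 (ne_zero_of_Ann hx)

lemma vol_Ann : volume (Ann V) < ⊤ := by
  refine lt_of_le_of_lt (measure_mono (t := Metric.ball (0:V) 1) fun x hx => ?_)
    measure_ball_lt_top
  simpa using hx.2

lemma intOn {F : V → ℝ} (hF : Continuous F) :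
    IntegrableOn (fun x => F (nrm x)) (Ann V) := by
  obtain ⟨C, hC⟩ := (isCompact_closedBall (0:V) 1).exists_bound_of_continuousOn hF.continuousOn
  refine IntegrableOn.of_bound vol_Ann ?_ C ?_
  · exact (hF.comp_continuousOn nrm_cont).aestronglyMeasurable isOpen_Ann.measurableSet
  · refine (ae_restrict_iff' isOpen_Ann.measurableSet).2 (Filter.Eventually.of_forall fun x hx => ?_)
    exact hC _ (by simp [nrm_norm_Ann hx])

lemma Iv_add {F G : V → ℝ} (hF : Continuous F) (hG : Continuous G) :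
    Iv (fun x => F x + G x) = Iv F + Iv G := integral_add (intOn hF) (intOn hG)

lemma Iv_sub {F G : V → ℝ} (hF : Continuous F) (hG : Continuous G) :
    Iv (fun x => F x - G x) = Iv F - Iv G := integral_sub (intOn hF) (intOn hG)

lemma Iv_smul (c : ℝ) (F : V → ℝ) : Iv (fun x => c * F x) = c * Iv F :=
  integral_const_mul c _

lemma Iv_sum {ι : Type*} (s : Finset ι) (F : ι → V → ℝ) (hF : ∀ i ∈ s, Continuous (F i)) :
    Iv (fun x => ∑ i ∈ s, F i x) = ∑ i ∈ s, Iv (F i) :=
  integral_finset_sum s fun i hi => intOn (hF i hi)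

lemma Iv_congr {F G : V → ℝ} (h : ∀ x : V, ‖x‖ = 1 → F x = G x) : Iv F = Iv G :=
  setIntegral_congr_fun isOpen_Ann.measurableSet fun _ hx => h _ (nrm_norm_Ann hx)

lemma Iv_mono {F G : V → ℝ} (hF : Continuous F) (hG : Continuous G)
    (h : ∀ x : V, ‖x‖ = 1 → F x ≤ G x) : Iv F ≤ Iv G :=
  setIntegral_mono_on (intOn hF) (intOn hG) isOpen_Ann.measurableSet
    fun _ hx => h _ (nrm_norm_Ann hx)

lemma Iv_nonneg {F : V → ℝ} (h : ∀ x : V, ‖x‖ = 1 → 0 ≤ F x) : 0 ≤ Iv F :=
  setIntegral_nonneg isOpen_Ann.measurableSet fun _ hx => h _ (nrm_norm_Ann hx)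

/-- positive definiteness -/
lemma Iv_sq_eq_zero {F : V → ℝ} (hF : Continuous F) (h : Iv (fun x => F x * F x) = 0) :
    ∀ x : V, ‖x‖ = 1 → F x = 0 := by
  intro x hx
  have h1 : ∀ᵐ y ∂(volume.restrict (Ann V)), F (nrm y) * F (nrm y) = 0 := by
    have := (setIntegral_eq_zero_iff_of_nonneg_ae (μ := volume) (s := Ann V)
      (f := fun y => F (nrm y) * F (nrm y))
      (Filter.Eventually.of_forall fun y => mul_self_nonneg _) (intOn (hF.mul hF))).1 h
    exact this
  have h2 : Set.EqOn (fun y => F (nrm y) * F (nrm y)) (fun _ => (0:ℝ)) (Ann V) := by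
    refine Measure.eqOn_open_of_ae_eq (μ := (volume : Measure V)) h1 isOpen_Ann ?_
      continuousOn_const
    exact (hF.comp_continuousOn nrm_cont).mul (hF.comp_continuousOn nrm_cont)
  have h3 : (3 / 4 : ℝ) • x ∈ Ann V := by
    constructor <;> rw [norm_smul, hx] <;> norm_num
  have h4 := h2 h3
  have h5 : nrm ((3 / 4 : ℝ) • x) = x := by
    unfold nrm
    rw [norm_smul, hx, smul_smul]
    norm_num
  simp only [h5] at h4
  exact mul_self_eq_zero.1 h4

section rot

variable {A : V →L[ℝ] V} (hA : ∀ x y : V, ⟪A x, y⟫ = -⟪x, A y⟫)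

omit [MeasurableSpace V] [BorelSpace V] in
lemma exp_deriv (A : V →L[ℝ] V) (v : V) (t : ℝ) :
    HasDerivAt (fun s : ℝ => NormedSpace.exp (s • A) v) (A (NormedSpace.exp (t • A) v)) t := by
  have h := hasDerivAt_exp_smul_const' (𝕂 := ℝ) A t
  have h2 := h.clm_apply (hasDerivAt_const t v)
  simpa using h2

include hA in
omit [MeasurableSpace V] [BorelSpace V] in
lemma exp_norm (t : ℝ) (v : V) : ‖NormedSpace.exp (t • A) v‖ = ‖v‖ := by
  let f : ℝ → ℝ := fun s => ⟪NormedSpace.exp (s • A) v, NormedSpace.exp (s • A) v⟫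
  have hd : ∀ s, HasDerivAt f 0 s := by
    intro s
    have h := (exp_deriv A v s).inner ℝ (exp_deriv A v s)
    refine h.congr_deriv ?_
    rw [hA, real_inner_comm]
    simp [real_inner_comm]
  have hc : f t = f 0 := is_const_of_deriv_eq_zero (fun s => (hd s).differentiableAt)
    (fun s => (hd s).deriv) t 0
  have h0 : f 0 = ‖v‖ ^ 2 := by simp [f, NormedSpace.exp_zero, real_inner_self_eq_norm_sq]
  have ht : f t = ‖NormedSpace.exp (t • A) v‖ ^ 2 := real_inner_self_eq_norm_sq _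
  rw [ht, h0] at hc
  exact (sq_eq_sq₀ (norm_nonneg _) (norm_nonneg _)).1 hc

include hA in
lemma Iv_rot_inv (t : ℝ) {F : V → ℝ} :
    ∫ x in Ann V, F (NormedSpace.exp (t • A) (nrm x)) = Iv F := by
  let L : V →ₗᵢ[ℝ] V := ⟨(NormedSpace.exp (t • A) : V →L[ℝ] V).toLinearMap, exp_norm hA t⟩
  let Φ : V ≃ₗᵢ[ℝ] V := L.toLinearIsometryEquiv rfl
  have hΦ : ∀ x, Φ x = NormedSpace.exp (t • A) x := fun x => rfl
  have h1 : ∀ x, NormedSpace.exp (t • A) (nrm x) = nrm (Φ x) := by
    intro x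
    unfold nrm
    rw [Φ.norm_map, hΦ, map_smul]
  simp only [h1]
  have h2 := Φ.measurePreserving.setIntegral_preimage_emb
    Φ.toHomeomorph.measurableEmbedding (fun y => F (nrm y)) (Ann V)
  have h3 : Φ ⁻¹' (Ann V) = Ann V := by
    ext x
    simp [Ann, Φ.norm_map]
  rw [h3] at h2
  exact h2

/-- rotation generator -/
noncomputable def RL (A : V →L[ℝ] V) (F : V → ℝ) : V → ℝ := fun x => fderiv ℝ F x (A x)

omit [FiniteDimensional ℝ V] [MeasurableSpace V] [BorelSpace V] in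
lemma RL_smooth (A : V →L[ℝ] V) {F : V → ℝ} (hF : ContDiff ℝ ∞ F) : ContDiff ℝ ∞ (RL A F) :=
  fderiv_apply_smooth hF A.contDiff

include hA in
lemma Iv_RL {F : V → ℝ} (hF : ContDiff ℝ ∞ F) : Iv (RL A F) = 0 := by
  have hcont : Continuous (RL A F) := (RL_smooth A hF).continuous
  obtain ⟨C, hC⟩ := (isCompact_closedBall (0:V) 1).exists_bound_of_continuousOn hcont.continuousOn
  have key := hasDerivAt_integral_of_dominated_loc_of_deriv_le (μ := volume.restrict (Ann V))
    (F := fun (t : ℝ) (x : V) => F (NormedSpace.exp (t • A) (nrm x)))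
    (F' := fun (t : ℝ) (x : V) => RL A F (NormedSpace.exp (t • A) (nrm x)))
    (x₀ := (0:ℝ)) (s := Set.univ) (bound := fun _ => C) Filter.univ_mem ?_ ?_ ?_ ?_ ?_ ?_
  · have h1 : (fun t : ℝ => ∫ x in Ann V, F (NormedSpace.exp (t • A) (nrm x))) = fun _ => Iv F :=
      funext fun t => Iv_rot_inv hA t
    have h2 := key.2
    rw [h1] at h2
    have h3 := h2.unique (hasDerivAt_const (0:ℝ) (Iv F))
    simpa [NormedSpace.exp_zero, Iv] using h3
  · refine Filter.Eventually.of_forall fun t => ?_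
    refine ContinuousOn.aestronglyMeasurable ?_ isOpen_Ann.measurableSet
    exact hF.continuous.comp_continuousOn
      ((NormedSpace.exp (t • A)).continuous.comp_continuousOn nrm_cont)
  · simpa [NormedSpace.exp_zero, IntegrableOn] using intOn hF.continuous
  · refine ContinuousOn.aestronglyMeasurable ?_ isOpen_Ann.measurableSet
    exact hcont.comp_continuousOn
      ((NormedSpace.exp ((0:ℝ) • A)).continuous.comp_continuousOn nrm_cont)
  · refine (ae_restrict_iff' isOpen_Ann.measurableSet).2 (Filter.Eventually.of_forall fun x hx => ?_)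
    intro t _
    exact hC _ (by simp [exp_norm hA, nrm_norm_Ann hx])
  · exact (integrableOn_const vol_Ann.ne)
  · refine Filter.Eventually.of_forall fun x t _ => ?_
    exact (hasFDerivAt_of_smooth hF _).comp_hasDerivAt t (exp_deriv A (nrm x) t)

omit [FiniteDimensional ℝ V] [MeasurableSpace V] [BorelSpace V] in
lemma RL_mul (A : V →L[ℝ] V) {F G : V → ℝ} (hF : ContDiff ℝ ∞ F) (hG : ContDiff ℝ ∞ G) (x : V) :
    RL A (fun y => F y * G y) x = RL A F x * G x + F x * RL A G x := by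
  unfold RL
  have := ((hasFDerivAt_of_smooth hF x).mul (hasFDerivAt_of_smooth hG x)).fderiv
  rw [show (fun y => F y * G y) = F * G from rfl, this]
  simp
  ring

include hA in
lemma Iv_RL_mul {F G : V → ℝ} (hF : ContDiff ℝ ∞ F) (hG : ContDiff ℝ ∞ G) :
    Iv (fun x => RL A F x * G x) = - Iv (fun x => F x * RL A G x) := by
  have h := Iv_RL hA (hF.mul hG)
  have h2 : RL A (fun y => F y * G y) = fun x => RL A F x * G x + F x * RL A G x :=
    funext fun x => RL_mul A hF hG x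
  have h3 := Iv_add (F := fun x => RL A F x * G x) (G := fun x => F x * RL A G x)
    ((RL_smooth A hF).continuous.mul hG.continuous)
    (hF.continuous.mul (RL_smooth A hG).continuous)
  have h4 : Iv (RL A (fun y => F y * G y)) = 0 := h
  rw [h2, h3] at h4
  linarith

include hA in
lemma Iv_RL2 {F G : V → ℝ} (hF : ContDiff ℝ ∞ F) (hG : ContDiff ℝ ∞ G) :
    Iv (fun x => RL A (RL A F) x * G x) = Iv (fun x => F x * RL A (RL A G) x) := by
  rw [Iv_RL_mul hA (RL_smooth A hF) hG, Iv_RL_mul hA hF (RL_smooth A hG), neg_neg]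

omit [FiniteDimensional ℝ V] [MeasurableSpace V] [BorelSpace V] in
lemma RL2_apply (A : V →L[ℝ] V) {F : V → ℝ} (hF : ContDiff ℝ ∞ F) (x : V) :
    RL A (RL A F) x = Hs F x (A x) (A x) + fderiv ℝ F x (A (A x)) := by
  have h1 : HasFDerivAt (fderiv ℝ F) (fderiv ℝ (fderiv ℝ F) x) x :=
    (((fderiv_smooth hF).differentiable (by simp)) x).hasFDerivAt
  have h2 : HasFDerivAt (RL A F) _ x := h1.clm_apply (A.hasFDerivAt (x := x))
  unfold RL at h2 ⊢
  rw [h2.fderiv]
  simp [Hs]
  ring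

end rot

/-- the generator of the rotation in the plane of two vectors -/
noncomputable def Aij (a b : V) : V →L[ℝ] V :=
  (innerSL ℝ a).smulRight b - (innerSL ℝ b).smulRight a

omit [FiniteDimensional ℝ V] [MeasurableSpace V] [BorelSpace V] in
lemma Aij_apply (a b x : V) : Aij a b x = ⟪a, x⟫ • b - ⟪b, x⟫ • a := by
  simp [Aij]

omit [FiniteDimensional ℝ V] [MeasurableSpace V] [BorelSpace V] in
lemma Aij_skew (a b x y : V) : ⟪Aij a b x, y⟫ = -⟪x, Aij a b y⟫ := by
  rw [Aij_apply, Aij_apply, inner_sub_left, inner_sub_right, inner_smul_left, inner_smul_left,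
    inner_smul_right, inner_smul_right, real_inner_comm x a, real_inner_comm x b]
  simp only [conj_trivial]
  ring

omit [MeasurableSpace V] [BorelSpace V] in
lemma sum_RL2 {n : ℕ} (hn : Module.finrank ℝ V = n + 1) {F : V → ℝ} (hF : ContDiff ℝ ∞ F)
    {x : V} (hx : ‖x‖ = 1) :
    ∑ i, ∑ j, RL (Aij (stdOrthonormalBasis ℝ V i) (stdOrthonormalBasis ℝ V j))
      (RL (Aij (stdOrthonormalBasis ℝ V i) (stdOrthonormalBasis ℝ V j)) F) x
      = 2 * DS n F x := by
  classical
  set b := stdOrthonormalBasis ℝ V with hb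
  have hxs : ∑ i, ⟪b i, x⟫ • b i = x := by
    have := b.sum_repr x
    simpa [b.repr_apply_apply] using this
  have hxn : ∑ i, ⟪b i, x⟫ * ⟪b i, x⟫ = 1 := by
    have h1 : ⟪x, x⟫ = (1:ℝ) := by rw [real_inner_self_eq_norm_sq, hx]; norm_num
    have h2 := b.sum_inner_mul_inner x x
    rw [h1] at h2
    rw [← h2]
    exact Finset.sum_congr rfl fun i _ => by rw [real_inner_comm]
  have hB : ∀ i j, RL (Aij (b i) (b j)) (RL (Aij (b i) (b j)) F) x
      = (⟪b i, x⟫ * ⟪b i, x⟫) * Hs F x (b j) (b j) + (⟪b j, x⟫ * ⟪b j, x⟫) * Hs F x (b i) (b i)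
        - ⟪b i, x⟫ * (⟪b j, x⟫ * Hs F x (b i) (b j)) - ⟪b j, x⟫ * (⟪b i, x⟫ * Hs F x (b j) (b i))
        + ((if i = j then ⟪b i, x⟫ * fderiv ℝ F x (b j) + ⟪b j, x⟫ * fderiv ℝ F x (b i) else 0)
          - ⟪b j, x⟫ * fderiv ℝ F x (b j) - ⟪b i, x⟫ * fderiv ℝ F x (b i)) := by
    intro i j
    rw [RL2_apply _ hF]
    have e1 : Hs F x (Aij (b i) (b j) x) (Aij (b i) (b j) x)
        = (⟪b i, x⟫ * ⟪b i, x⟫) * Hs F x (b j) (b j) + (⟪b j, x⟫ * ⟪b j, x⟫) * Hs F x (b i) (b i)
        - ⟪b i, x⟫ * (⟪b j, x⟫ * Hs F x (b i) (b j)) - ⟪b j, x⟫ * (⟪b i, x⟫ * Hs F x (b j) (b i)) := by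
      rw [Aij_apply]
      simp only [Hs, map_sub, map_smul, _root_.sub_apply, _root_.smul_apply, smul_eq_mul]
      ring
    rw [e1]
    congr 1
    rw [Aij_apply (b i) (b j) (Aij (b i) (b j) x), Aij_apply (b i) (b j) x]
    simp only [inner_sub_right, inner_smul_right, b.inner_eq_ite, map_sub, map_smul, smul_eq_mul]
    rcases eq_or_ne i j with h | h
    · subst h
      simp
    · simp [h, h.symm]
  simp only [hB]
  have hHxx : ∑ i, ∑ j, ⟪b i, x⟫ * (⟪b j, x⟫ * Hs F x (b i) (b j)) = Hs F x x x := by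
    have e : Hs F x x x = Hs F x (∑ i, ⟪b i, x⟫ • b i) (∑ j, ⟪b j, x⟫ • b j) := by rw [hxs]
    rw [e]
    unfold Hs
    simp only [map_sum, map_smul, ContinuousLinearMap.coe_sum', Finset.sum_apply,
      ContinuousLinearMap.coe_smul', Pi.smul_apply, smul_eq_mul, Finset.mul_sum]
    rw [Finset.sum_comm]
    refine Finset.sum_congr rfl fun i _ => Finset.sum_congr rfl fun j _ => ?_
    ring
  have hHxx' : ∑ i, ∑ j, ⟪b j, x⟫ * (⟪b i, x⟫ * Hs F x (b j) (b i)) = Hs F x x x := by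
    rw [Finset.sum_comm]
    exact hHxx
  have hf : ∑ i, ⟪b i, x⟫ * fderiv ℝ F x (b i) = fderiv ℝ F x x := by
    have h := congrArg (fderiv ℝ F x) hxs
    rw [map_sum] at h
    simpa only [map_smul, smul_eq_mul] using h
  have hcard : (Fintype.card (Fin (Module.finrank ℝ V)) : ℝ) = n + 1 := by
    simp [hn]
  have s1 : ∑ i, ∑ j, (⟪b i, x⟫ * ⟪b i, x⟫) * Hs F x (b j) (b j) = ∑ j, Hs F x (b j) (b j) := by
    simp only [← Finset.mul_sum, ← Finset.sum_mul, hxn, one_mul]
  have s2 : ∑ i, ∑ j, (⟪b j, x⟫ * ⟪b j, x⟫) * Hs F x (b i) (b i) = ∑ j, Hs F x (b j) (b j) := by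
    rw [Finset.sum_comm]
    exact s1
  have s5 : ∑ i, ∑ j, (if i = j then ⟪b i, x⟫ * fderiv ℝ F x (b j) + ⟪b j, x⟫ * fderiv ℝ F x (b i)
      else 0) = 2 * fderiv ℝ F x x := by
    simp only [Finset.sum_ite_eq, Finset.mem_univ, if_true, Finset.sum_add_distrib, hf]
    ring
  have s6 : ∑ i : Fin (Module.finrank ℝ V), ∑ j, ⟪b j, x⟫ * fderiv ℝ F x (b j)
      = (n + 1) * fderiv ℝ F x x := by
    rw [hf, Finset.sum_const, Finset.card_univ, nsmul_eq_mul, hcard]
  have s7 : ∑ i, ∑ j : Fin (Module.finrank ℝ V), ⟪b i, x⟫ * fderiv ℝ F x (b i)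
      = (n + 1) * fderiv ℝ F x x := by
    rw [Finset.sum_comm]
    exact s6
  simp only [Finset.sum_add_distrib, Finset.sum_sub_distrib]
  rw [s1, s2, hHxx, hHxx', s5, s6, s7]
  unfold DS
  rw [lap_eq b F x]
  ring

/-- The spherical Laplacian is symmetric. -/
lemma Iv_DS {n : ℕ} (hn : Module.finrank ℝ V = n + 1) {F G : V → ℝ} (hF : ContDiff ℝ ∞ F)
    (hG : ContDiff ℝ ∞ G) :
    Iv (fun x => DS n F x * G x) = Iv (fun x => F x * DS n G x) := by
  have h1 : ∀ {F G : V → ℝ} (hF : ContDiff ℝ ∞ F) (hG : ContDiff ℝ ∞ G),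
      Iv (fun x => DS n F x * G x) = (1 / 2) * ∑ i, ∑ j,
        Iv (fun x => RL (Aij (stdOrthonormalBasis ℝ V i) (stdOrthonormalBasis ℝ V j))
      (RL (Aij (stdOrthonormalBasis ℝ V i) (stdOrthonormalBasis ℝ V j)) F) x * G x) := by
    intro F G hF hG
    rw [Iv_congr (G := fun x => (1 / 2) * ∑ i, ∑ j,
      RL (Aij (stdOrthonormalBasis ℝ V i) (stdOrthonormalBasis ℝ V j))
      (RL (Aij (stdOrthonormalBasis ℝ V i) (stdOrthonormalBasis ℝ V j)) F) x * G x), Iv_smul,
      Iv_sum]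
    · congr 1
      refine Finset.sum_congr rfl fun i _ => ?_
      rw [Iv_sum]
      intro j _
      exact (RL_smooth _ (RL_smooth _ hF)).continuous.mul hG.continuous
    · intro i _
      refine continuous_finsetSum _ fun j _ => ?_
      exact (RL_smooth _ (RL_smooth _ hF)).continuous.mul hG.continuous
    · intro x hx
      simp only [← Finset.sum_mul]
      rw [sum_RL2 hn hF hx]
      ring
  rw [h1 hF hG]
  have h2 : Iv (fun x => F x * DS n G x) = Iv (fun x => DS n G x * F x) :=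
    Iv_congr fun x _ => mul_comm _ _
  rw [h2, h1 hG hF]
  congr 1
  refine Finset.sum_congr rfl fun i _ => Finset.sum_congr rfl fun j _ => ?_
  rw [Iv_RL2 (Aij_skew _ _) hF hG]
  exact Iv_congr fun x _ => mul_comm _ _

end R235.VE
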