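import Pool.Agent.R235.VE.Poly

open scoped RealInnerProductSpace ContDiff
open InnerProductSpace Laplacian

namespace R235.VE

variable {V : Type*} [NormedAddCommGroup V] [InnerProductSpace ℝ V] [FiniteDimensional ℝ V]
variable {E : Type*} [NormedAddCommGroup E] [InnerProductSpace ℝ E]

/-- a bilinear map which behaves like the tensor product -/
def IsTens (T : V →L[ℝ] V →L[ℝ] E) : Prop :=
  ∀ x y z w, ⟪T x y, T z w⟫ = ⟪x, z⟫ * ⟪y, w⟫

/-- the identity tensor -/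
noncomputable def Idt (T : V →L[ℝ] V →L[ℝ] E) : E :=
  ∑ i, T (stdOrthonormalBasis ℝ V i) (stdOrthonormalBasis ℝ V i)

/-- normalising constant -/
noncomputable def cc (n : ℕ) : ℝ := Real.sqrt ((n + 1) / n)

lemma cc_sq {n : ℕ} (hn1 : 1 ≤ n) : cc n ^ 2 = (n + 1) / n := Real.sq_sqrt (by positivity)

lemma cc_pos {n : ℕ} (hn1 : 1 ≤ n) : 0 < cc n := by
  have : (0:ℝ) < n := by exact_mod_cast hn1
  exact Real.sqrt_pos.2 (by positivity)

/-- the Veronese map -/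
noncomputable def vz (n : ℕ) (T : V →L[ℝ] V →L[ℝ] E) (x : V) : E :=
  cc n • (T x x - ((n:ℝ) + 1)⁻¹ • Idt T)

/-- the Veronese manifold, a minimally embedded real projective space -/
def VM (n : ℕ) (T : V →L[ℝ] V →L[ℝ] E) : Set E := vz n T '' Metric.sphere 0 1

/-- inverse of the affine normalisation -/
noncomputable def Ph (n : ℕ) (T : V →L[ℝ] V →L[ℝ] E) (A : E) : E :=
  (cc n)⁻¹ • A + ((n:ℝ) + 1)⁻¹ • Idt T

/-- contraction with `x` of the normalised tensor -/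
noncomputable def Kx (n : ℕ) (T : V →L[ℝ] V →L[ℝ] E) (x : V) (A : E) : V :=
  ∑ i, ⟪Ph n T A, T (stdOrthonormalBasis ℝ V i) x⟫ • stdOrthonormalBasis ℝ V i

section
variable {n : ℕ} {T : V →L[ℝ] V →L[ℝ] E}

lemma Ph_vz (hn1 : 1 ≤ n) (x : V) : Ph n T (vz n T x) = T x x := by
  unfold Ph vz
  rw [smul_smul, inv_mul_cancel₀ (cc_pos hn1).ne', one_smul]
  module

lemma vz_smooth : ContDiff ℝ ∞ (vz n T) := by
  unfold vz
  exact (((T.contDiff).clm_apply contDiff_id).sub contDiff_const).const_smul _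

lemma Idt_inner (hT : IsTens T) (x y : V) : ⟪Idt T, T x y⟫ = ⟪x, y⟫ := by
  unfold Idt
  rw [sum_inner]
  simp only [hT _ _ x y]
  rw [← (stdOrthonormalBasis ℝ V).sum_inner_mul_inner x y]
  exact Finset.sum_congr rfl fun i _ => by rw [real_inner_comm x]

lemma Idt_self (hT : IsTens T) (hn : Module.finrank ℝ V = n + 1) : ⟪Idt T, Idt T⟫ = (n:ℝ) + 1 := by
  conv_lhs => rw [show ⟪Idt T, Idt T⟫ = ⟪Idt T, ∑ i, T (stdOrthonormalBasis ℝ V i)
    (stdOrthonormalBasis ℝ V i)⟫ from rfl]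
  rw [inner_sum]
  simp only [Idt_inner hT]
  simp [(stdOrthonormalBasis ℝ V).orthonormal.1, hn]

lemma vz_norm (hn1 : 1 ≤ n) (hT : IsTens T) (hn : Module.finrank ℝ V = n + 1) {x : V}
    (hx : ‖x‖ = 1) : ‖vz n T x‖ = 1 := by
  have h0 : (0:ℝ) < n := by exact_mod_cast hn1
  have hxx : ⟪x, x⟫ = (1:ℝ) := by rw [real_inner_self_eq_norm_sq, hx]; norm_num
  have h : ⟪vz n T x, vz n T x⟫ = (1:ℝ) := by
    unfold vz
    rw [inner_smul_left, inner_smul_right, inner_sub_left, inner_sub_right, inner_sub_right,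
      inner_smul_left, inner_smul_right, inner_smul_left, inner_smul_right, hT,
      Idt_self hT hn, real_inner_comm (Idt T) (T x x), Idt_inner hT, hxx]
    simp only [conj_trivial]
    have := cc_sq hn1
    have e : cc n * (cc n * (1 * 1 - ((n:ℝ) + 1)⁻¹ * 1 - (((n:ℝ) + 1)⁻¹ * 1
      - ((n:ℝ) + 1)⁻¹ * (((n:ℝ) + 1)⁻¹ * ((n:ℝ) + 1))))) = cc n ^ 2 * (1 - ((n:ℝ) + 1)⁻¹
        - (((n:ℝ) + 1)⁻¹ - ((n:ℝ) + 1)⁻¹ * (((n:ℝ) + 1)⁻¹ * ((n:ℝ) + 1)))) := by ring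
    rw [e, this]
    field_simp
    ring
  rw [real_inner_self_eq_norm_sq] at h
  nlinarith [norm_nonneg (vz n T x)]

lemma Kx_vz (hn1 : 1 ≤ n) (hT : IsTens T) (x y : V) : Kx n T x (vz n T y) = ⟪y, x⟫ • y := by
  unfold Kx
  rw [Ph_vz hn1]
  simp only [hT y y]
  have h := (stdOrthonormalBasis ℝ V).sum_repr y
  simp only [(stdOrthonormalBasis ℝ V).repr_apply_apply] at h
  conv_rhs => rw [← h]
  rw [Finset.smul_sum]
  refine Finset.sum_congr rfl fun i _ => ?_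
  rw [smul_smul, mul_comm, real_inner_comm (stdOrthonormalBasis ℝ V i) y, real_inner_comm x y]
  rw [h, real_inner_comm x y]

lemma Kx_smooth (x : V) : ContDiff ℝ ∞ (Kx n T x) := by
  unfold Kx Ph
  refine ContDiff.sum fun i _ => ?_
  refine ContDiff.smul ?_ contDiff_const
  exact ((contDiff_id.const_smul _).add contDiff_const).inner ℝ contDiff_const

/-- derivative of a bilinear expression -/
lemma bil_deriv {f g : ℝ → V} {f' g' : V} {t : ℝ} (hf : HasDerivAt f f' t)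
    (hg : HasDerivAt g g' t) :
    HasDerivAt (fun s => T (f s) (g s)) (T f' (g t) + T (f t) g') t := by
  have h1 : HasDerivAt (fun s => T (f s)) (T f') t := T.hasFDerivAt.comp_hasDerivAt t hf
  exact h1.clm_apply hg

lemma vz_comp_deriv {σ : ℝ → V} (hσ : ContDiff ℝ ∞ σ) :
    deriv (fun t => vz n T (σ t)) = fun t => cc n • (T (deriv σ t) (σ t) + T (σ t) (deriv σ t)) := by
  funext t
  have h := ((bil_deriv (T := T) (hasDerivAt_of_smooth hσ t) (hasDerivAt_of_smooth hσ t)).sub_const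
    (((n:ℝ) + 1)⁻¹ • Idt T)).const_smul (cc n)
  exact h.deriv

lemma vz_comp_deriv2 {σ : ℝ → V} (hσ : ContDiff ℝ ∞ σ) (t : ℝ) :
    deriv (deriv (fun t => vz n T (σ t))) t = cc n • (T (deriv (deriv σ) t) (σ t)
      + (2:ℝ) • T (deriv σ t) (deriv σ t) + T (σ t) (deriv (deriv σ) t)) := by
  rw [vz_comp_deriv hσ]
  have h1 := hasDerivAt_of_smooth hσ t
  have h2 := hasDerivAt_of_smooth (deriv_smoothV hσ) t
  have h := ((bil_deriv (T := T) h2 h1).add (bil_deriv (T := T) h1 h2)).const_smul (cc n)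
  refine h.deriv.trans ?_
  module

/-- relations for a curve in `VM`. -/
lemma curve_rel (hn1 : 1 ≤ n) (hT : IsTens T) {γ : ℝ → E} (hγ : CurveIn (VM n T) γ) (x : V)
    (t : ℝ) : T (Kx n T x (γ t)) (Kx n T x (γ t)) = ⟪Kx n T x (γ t), x⟫ • Ph n T (γ t) ∧
      ⟪Kx n T x (γ t), Kx n T x (γ t)⟫ = ⟪Kx n T x (γ t), x⟫ := by
  obtain ⟨y, hy, hyt⟩ := hγ.2 t
  have hy1 : ‖y‖ = 1 := by simpa using hy
  have hyy : ⟪y, y⟫ = (1:ℝ) := by rw [real_inner_self_eq_norm_sq, hy1]; norm_num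
  rw [← hyt, Kx_vz hn1 hT, Ph_vz hn1]
  constructor
  · rw [map_smul, map_smul, _root_.smul_apply, inner_smul_left, smul_smul]
    simp
  · rw [inner_smul_left, inner_smul_right, inner_smul_left, hyy]
    simp

/-- the two-jet at `0` of a curve in `VM` -/
lemma curve_jet (hn1 : 1 ≤ n) (hT : IsTens T) {γ : ℝ → E} (hγ : CurveIn (VM n T) γ) {x : V}
    (hx : ‖x‖ = 1) (h0 : γ 0 = vz n T x) :
    ∃ w a : V, ⟪x, w⟫ = 0 ∧ deriv γ 0 = cc n • (T w x + T x w) ∧ ⟪a, x⟫ = -2 * ‖w‖ ^ 2 ∧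
      deriv (deriv γ) 0 = cc n • (T a x + T x a + (2:ℝ) • T w w - ⟪a, x⟫ • T x x) := by
  have hxx : ⟪x, x⟫ = (1:ℝ) := by rw [real_inner_self_eq_norm_sq, hx]; norm_num
  set z : ℝ → V := fun t => Kx n T x (γ t) with hz
  have hzs : ContDiff ℝ ∞ z := (Kx_smooth x).comp hγ.1
  have hz0 : z 0 = x := by
    simp only [hz, h0, Kx_vz hn1 hT, hxx, one_smul]
  have R1 : ∀ t, T (z t) (z t) = ⟪z t, x⟫ • Ph n T (γ t) := fun t => (curve_rel hn1 hT hγ x t).1
  have R2 : ∀ t, ⟪z t, z t⟫ = ⟪z t, x⟫ := fun t => (curve_rel hn1 hT hγ x t).2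
  have d1 : ∀ t, HasDerivAt z (deriv z t) t := fun t => hasDerivAt_of_smooth hzs t
  have d2 : ∀ t, HasDerivAt (deriv z) (deriv (deriv z) t) t :=
    fun t => hasDerivAt_of_smooth (deriv_smoothV hzs) t
  have dP : ∀ t, HasDerivAt (fun s => Ph n T (γ s)) ((cc n)⁻¹ • deriv γ t) t := fun t =>
    ((hasDerivAt_of_smooth hγ.1 t).const_smul _).add_const _
  have dP2 : ∀ t, HasDerivAt (fun s => (cc n)⁻¹ • deriv γ s) ((cc n)⁻¹ • deriv (deriv γ) t) t :=
    fun t => (hasDerivAt_of_smooth (deriv_smoothV hγ.1) t).const_smul _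
  have dx : ∀ t, HasDerivAt (fun s => ⟪z s, x⟫) ⟪deriv z t, x⟫ t := by
    intro t
    have := (d1 t).inner ℝ (hasDerivAt_const t x)
    simpa using this
  have dx2 : ∀ t, HasDerivAt (fun s => ⟪deriv z s, x⟫) ⟪deriv (deriv z) t, x⟫ t := by
    intro t
    have := (d2 t).inner ℝ (hasDerivAt_const t x)
    simpa using this
  -- first derivative of R2
  have R2' : ∀ t, ⟪z t, deriv z t⟫ + ⟪deriv z t, z t⟫ = ⟪deriv z t, x⟫ := by
    intro t
    have h1 := (d1 t).inner ℝ (d1 t)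
    have h2 : (fun s => ⟪z s, z s⟫) = fun s => ⟪z s, x⟫ := funext R2
    rw [h2] at h1
    exact h1.unique (dx t)
  have R2'' : ⟪z 0, deriv (deriv z) 0⟫ + ⟪deriv z 0, deriv z 0⟫ +
      (⟪deriv z 0, deriv z 0⟫ + ⟪deriv (deriv z) 0, z 0⟫) = ⟪deriv (deriv z) 0, x⟫ := by
    have h1 := ((d1 0).inner ℝ (d2 0)).add ((d2 0).inner ℝ (d1 0))
    have h2 : ((fun s => ⟪z s, deriv z s⟫) + fun s => ⟪deriv z s, z s⟫)
        = fun s => ⟪deriv z s, x⟫ := funext R2'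
    rw [h2] at h1
    exact h1.unique (dx2 0)
  have hw0 : ⟪deriv z 0, x⟫ = 0 := by
    have := R2' 0
    rw [hz0, real_inner_comm (deriv z 0) x] at this
    linarith
  have ha0 : ⟪deriv (deriv z) 0, x⟫ = -2 * ‖deriv z 0‖ ^ 2 := by
    have h3 := R2''
    rw [hz0, real_inner_comm (deriv (deriv z) 0) x, real_inner_self_eq_norm_sq] at h3
    linarith
  have R1' : ∀ t, T (deriv z t) (z t) + T (z t) (deriv z t)
      = ⟪z t, x⟫ • ((cc n)⁻¹ • deriv γ t) + ⟪deriv z t, x⟫ • Ph n T (γ t) := by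
    intro t
    have h1 := bil_deriv (T := T) (d1 t) (d1 t)
    have h2 : (fun s => T (z s) (z s)) = fun s => ⟪z s, x⟫ • Ph n T (γ s) := funext R1
    rw [h2] at h1
    exact h1.unique ((dx t).smul (dP t))
  have R1'' : (T (deriv (deriv z) 0) (z 0) + T (deriv z 0) (deriv z 0))
      + (T (deriv z 0) (deriv z 0) + T (z 0) (deriv (deriv z) 0))
      = (⟪z 0, x⟫ • ((cc n)⁻¹ • deriv (deriv γ) 0) + ⟪deriv z 0, x⟫ • ((cc n)⁻¹ • deriv γ 0))
        + (⟪deriv z 0, x⟫ • ((cc n)⁻¹ • deriv γ 0) + ⟪deriv (deriv z) 0, x⟫ • Ph n T (γ 0)) := by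
    have h1 := (bil_deriv (T := T) (d2 0) (d1 0)).add (bil_deriv (T := T) (d1 0) (d2 0))
    have h2 : ((fun s => T (deriv z s) (z s)) + fun s => T (z s) (deriv z s))
        = (fun s => ⟪z s, x⟫ • ((cc n)⁻¹ • deriv γ s)) + fun s => ⟪deriv z s, x⟫ • Ph n T (γ s) :=
      funext R1'
    rw [h2] at h1
    exact h1.unique (((dx 0).smul (dP2 0)).add ((dx2 0).smul (dP 0)))
  have hc := (cc_pos hn1).ne'
  refine ⟨deriv z 0, deriv (deriv z) 0, by rw [real_inner_comm, hw0], ?_, ha0, ?_⟩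
  · have h1 := R1' 0
    rw [hz0, hxx, hw0, zero_smul, add_zero, one_smul] at h1
    rw [h1, smul_smul, mul_inv_cancel₀ hc, one_smul]
  · have h1 := R1''
    rw [hz0, hxx, hw0, zero_smul, add_zero, zero_add, one_smul, h0, Ph_vz hn1] at h1
    have h2 : (cc n)⁻¹ • deriv (deriv γ) 0 = T (deriv (deriv z) 0) x + T x (deriv (deriv z) 0)
        + (2:ℝ) • T (deriv z 0) (deriv z 0) - ⟪deriv (deriv z) 0, x⟫ • T x x := by
      rw [eq_sub_iff_add_eq, ← h1]
      module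
    rw [← h2, smul_smul, mul_inv_cancel₀ hc, one_smul]

end

end R235.VE
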