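import Pool.Agent.R235.VE.Ver1

open scoped RealInnerProductSpace ContDiff
open InnerProductSpace Laplacian

namespace R235.VE

variable {V : Type*} [NormedAddCommGroup V] [InnerProductSpace ℝ V] [FiniteDimensional ℝ V]
variable {E : Type*} [NormedAddCommGroup E] [InnerProductSpace ℝ E]
variable {n : ℕ} {T : V →L[ℝ] V →L[ℝ] E}

lemma inner_self_one {x : V} (hx : ‖x‖ = 1) : ⟪x, x⟫ = (1:ℝ) := by
  rw [real_inner_self_eq_norm_sq, hx]; norm_num

lemma tangent_form (hn1 : 1 ≤ n) (hT : IsTens T) {x : V} (hx : ‖x‖ = 1) {v : E}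
    (hv : TangentVec (VM n T) (vz n T x) v) :
    ∃ w : V, ⟪x, w⟫ = 0 ∧ v = cc n • (T w x + T x w) := by
  obtain ⟨γ, hγ, h0, h1⟩ := hv
  obtain ⟨w, a, hw, hd, _, _⟩ := curve_jet hn1 hT hγ hx h0
  exact ⟨w, hw, by rw [← h1, hd]⟩

lemma vz_gc_curveIn {x w : V} (hx : ‖x‖ = 1) (hxw : ⟪x, w⟫ = 0) :
    CurveIn (VM n T) (fun t => vz n T (gc x w t)) :=
  ⟨vz_smooth.comp (gc_smooth x w), fun t => ⟨gc x w t, by simp [gc_norm hx hxw t], rfl⟩⟩

lemma tangent_of_form {x w : V} (hx : ‖x‖ = 1) (hxw : ⟪x, w⟫ = 0) :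
    TangentVec (VM n T) (vz n T x) (cc n • (T w x + T x w)) := by
  refine ⟨fun t => vz n T (gc x w t), vz_gc_curveIn hx hxw, by simp [gc_zero], ?_⟩
  rw [vz_comp_deriv (gc_smooth x w)]
  simp only [gc_deriv_zero, gc_zero]

lemma gc_geodesic (hn1 : 1 ≤ n) (hT : IsTens T) {x w : V} (hx : ‖x‖ = 1) (hxw : ⟪x, w⟫ = 0) :
    IsGeodesic (VM n T) (fun t => vz n T (gc x w t)) := by
  refine ⟨vz_gc_curveIn hx hxw, fun t v hv => ?_⟩
  have hσ : ‖gc x w t‖ = 1 := gc_norm hx hxw t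
  obtain ⟨u, hu, rfl⟩ := tangent_form hn1 hT hσ hv
  rw [vz_comp_deriv2 (gc_smooth x w), gc_deriv2]
  have hperp : ⟪gc x w t, deriv (gc x w) t⟫ = 0 := by
    have h1 := (hasDerivAt_of_smooth (gc_smooth x w) t).inner ℝ (hasDerivAt_of_smooth (gc_smooth x w) t)
    have h2 : (fun s => ⟪gc x w s, gc x w s⟫) = fun _ => (1:ℝ) :=
      funext fun s => inner_self_one (gc_norm hx hxw s)
    rw [h2] at h1
    have h3 := h1.unique (hasDerivAt_const t (1:ℝ))
    rw [real_inner_comm (deriv (gc x w) t)] at h3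
    have h4 := h3
    rw [real_inner_comm (gc x w t)] at h4
    linarith
  rw [inner_smul_left, inner_smul_right]
  have h5 : ⟪T (-(‖w‖ ^ 2) • gc x w t) (gc x w t) + (2:ℝ) • T (deriv (gc x w) t) (deriv (gc x w) t)
      + T (gc x w t) (-(‖w‖ ^ 2) • gc x w t), T u (gc x w t) + T (gc x w t) u⟫ = 0 := by
    simp only [map_smul, _root_.smul_apply, inner_add_left, inner_add_right, inner_smul_left,
      hT _ _ _ _, hu, inner_self_one hσ]
    rw [real_inner_comm (gc x w t) (deriv (gc x w) t), hperp]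
    simp
  rw [h5]
  simp

/-- the two-jet of a geodesic of `VM` -/
lemma geodesic_jet (hn1 : 1 ≤ n) (hT : IsTens T) {γ : ℝ → E} (hγ : IsGeodesic (VM n T) γ) {x : V}
    (hx : ‖x‖ = 1) (h0 : γ 0 = vz n T x) :
    ∃ w : V, ⟪x, w⟫ = 0 ∧ deriv γ 0 = cc n • (T w x + T x w) ∧
      deriv (deriv γ) 0 = deriv (deriv (fun t => vz n T (gc x w t))) 0 := by
  obtain ⟨w, a, hxw, hd, hax, hdd⟩ := curve_jet hn1 hT hγ.1 hx h0
  refine ⟨w, hxw, hd, ?_⟩
  have hc := cc_pos hn1
  have hperp : ∀ v : V, ⟪x, v⟫ = 0 → ⟪a, v⟫ = 0 := by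
    intro v hv
    have h1 := hγ.2 0 (cc n • (T v x + T x v)) (by rw [h0]; exact tangent_of_form hx hv)
    rw [hdd, inner_smul_left, inner_smul_right] at h1
    have h2 : ⟪T a x + T x a + (2:ℝ) • T w w - ⟪a, x⟫ • T x x, T v x + T x v⟫ = 2 * ⟪a, v⟫ := by
      have hwx : ⟪w, x⟫ = 0 := by rw [real_inner_comm]; exact hxw
      simp only [inner_add_left, inner_sub_left, inner_add_right, inner_smul_left, hT _ _ _ _, hv,
        inner_self_one hx, hwx]
      simp
      ring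
    rw [h2] at h1
    simp only [conj_trivial, mul_eq_zero] at h1
    rcases h1 with h1 | h1 | h1 | h1
    · exact absurd h1 hc.ne'
    · exact absurd h1 hc.ne'
    · norm_num at h1
    · exact h1
  have ha : a = ⟪a, x⟫ • x := by
    have h1 : ⟪x, a - ⟪a, x⟫ • x⟫ = 0 := by
      rw [inner_sub_right, inner_smul_right, inner_self_one hx, real_inner_comm]
      ring
    have h2 := hperp _ h1
    have h3 : ⟪a - ⟪a, x⟫ • x, a - ⟪a, x⟫ • x⟫ = 0 := by
      rw [inner_sub_left, h2, inner_smul_left, h1]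
      simp
    exact sub_eq_zero.1 (inner_self_eq_zero.1 h3)
  rw [vz_comp_deriv2 (gc_smooth x w), gc_deriv2, gc_deriv_zero, gc_zero, hdd]
  congr 1
  have e1 : T a x = ⟪a, x⟫ • T x x := by
    conv_lhs => rw [ha]
    rw [map_smul, _root_.smul_apply]
  have e2 : T x a = ⟪a, x⟫ • T x x := by
    conv_lhs => rw [ha]
    rw [map_smul]
  rw [e1, e2, hax, map_smul, map_smul, _root_.smul_apply]
  module

lemma geodesic_second (hn1 : 1 ≤ n) (hT : IsTens T) {γ : ℝ → E} (hγ : IsGeodesic (VM n T) γ)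
    {x : V} (hx : ‖x‖ = 1) (h0 : γ 0 = vz n T x) :
    ∃ w : V, ⟪x, w⟫ = 0 ∧ deriv γ 0 = cc n • (T w x + T x w) ∧
      ∀ F : E → ℝ, ContDiff ℝ ∞ F → deriv (deriv (F ∘ γ)) 0 =
        Hs (fun y => F (vz n T y)) x w w - ‖w‖ ^ 2 * fderiv ℝ (fun y => F (vz n T y)) x x := by
  obtain ⟨w, hxw, hd, hdd⟩ := geodesic_jet hn1 hT hγ hx h0
  refine ⟨w, hxw, hd, fun F hF => ?_⟩
  have hG : ContDiff ℝ ∞ (fun y => F (vz n T y)) := hF.comp vz_smooth
  rw [← second_deriv_gc hG x w]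
  refine second_deriv_congr hF hγ.1.1 (vz_smooth.comp (gc_smooth x w)) 0 ?_ ?_ hdd
  · simp [gc_zero, h0]
  · have : deriv (fun t => vz n T (gc x w t)) 0 = cc n • (T w x + T x w) := by
      rw [vz_comp_deriv (gc_smooth x w)]
      simp only [gc_deriv_zero, gc_zero]
    exact hd.trans this.symm

lemma inner_vel (hT : IsTens T) {x w u : V} (hx : ‖x‖ = 1) (hw : ⟪x, w⟫ = 0) (hu : ⟪x, u⟫ = 0) :
    ⟪cc n • (T w x + T x w), cc n • (T u x + T x u)⟫ = 2 * cc n ^ 2 * ⟪w, u⟫ := by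
  have hwx : ⟪w, x⟫ = 0 := by rw [real_inner_comm]; exact hw
  rw [inner_smul_left, inner_smul_right]
  simp only [inner_add_left, inner_add_right, hT _ _ _ _, inner_self_one hx, hwx, hu]
  simp
  ring

/-- The Laplacian of `VM` in terms of the spherical Laplacian. -/
theorem frame_sum (hn1 : 1 ≤ n) (hn : Module.finrank ℝ V = n + 1) (hT : IsTens T) {x : V}
    (hx : ‖x‖ = 1) {γ : Fin n → ℝ → E} (hγ : GeodesicFrame n (VM n T) (vz n T x) γ) {F : E → ℝ}
    (hF : ContDiff ℝ ∞ F) :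
    ∑ i, deriv (deriv (F ∘ γ i)) 0 = (2 * cc n ^ 2)⁻¹ * DS n (fun y => F (vz n T y)) x := by
  obtain ⟨hg, hg0, horth⟩ := hγ
  choose w hxw hd hw using fun i => geodesic_second hn1 hT (hg i) hx (hg0 i)
  have hc := cc_pos hn1
  set s : ℝ := Real.sqrt 2 * cc n with hs
  have hs2 : s ^ 2 = 2 * cc n ^ 2 := by rw [hs, mul_pow, Real.sq_sqrt (by norm_num)]
  have hspos : 0 < s := by positivity
  let e : Fin n → V := fun i => s • w i
  have he : Orthonormal ℝ e := by
    rw [orthonormal_iff_ite] at horth ⊢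
    intro i j
    have h1 := horth i j
    rw [hd, hd, inner_vel hT hx (hxw i) (hxw j)] at h1
    simp only [e]
    rw [inner_smul_left, inner_smul_right, ← h1, ← hs2]
    simp only [conj_trivial]
    ring
  have hxe : ∀ i, ⟪x, e i⟫ = 0 := fun i => by
    simp only [e]
    rw [inner_smul_right, hxw i, mul_zero]
  have hG : ContDiff ℝ ∞ (fun y => F (vz n T y)) := hF.comp vz_smooth
  rw [DS_eq_sum hn hx he hxe hG, Finset.mul_sum]
  refine Finset.sum_congr rfl fun i _ => ?_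
  rw [hw i F hF, second_deriv_gc hG]
  simp only [e]
  have h2 : Hs (fun y => F (vz n T y)) x (s • w i) (s • w i)
      = s ^ 2 * Hs (fun y => F (vz n T y)) x (w i) (w i) := by
    unfold Hs
    simp only [map_smul, _root_.smul_apply, smul_eq_mul]
    ring
  rw [h2, norm_smul, Real.norm_eq_abs, mul_pow |s| ‖w i‖, sq_abs, ← hs2]
  field_simp

/-- existence of geodesic frames -/
theorem exists_geoframe (hn1 : 1 ≤ n) (hn : Module.finrank ℝ V = n + 1) (hT : IsTens T) {x : V}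
    (hx : ‖x‖ = 1) : ∃ γ, GeodesicFrame n (VM n T) (vz n T x) γ := by
  obtain ⟨e, he, hxe⟩ := exists_frame hn hx
  have hc := cc_pos hn1
  set s : ℝ := Real.sqrt 2 * cc n with hs
  have hs2 : s ^ 2 = 2 * cc n ^ 2 := by rw [hs, mul_pow, Real.sq_sqrt (by norm_num)]
  have hspos : 0 < s := by positivity
  have hxw : ∀ i, ⟪x, s⁻¹ • e i⟫ = 0 := fun i => by rw [inner_smul_right, hxe i, mul_zero]
  refine ⟨fun i t => vz n T (gc x (s⁻¹ • e i) t), fun i => gc_geodesic hn1 hT hx (hxw i),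
    fun i => by simp [gc_zero], ?_⟩
  rw [orthonormal_iff_ite] at he ⊢
  intro i j
  have hd : ∀ i, deriv (fun t => vz n T (gc x (s⁻¹ • e i) t)) 0
      = cc n • (T (s⁻¹ • e i) x + T x (s⁻¹ • e i)) := fun i => by
    rw [vz_comp_deriv (gc_smooth x _)]
    simp only [gc_deriv_zero, gc_zero]
  rw [hd, hd, inner_vel hT hx (hxw i) (hxw j), inner_smul_left, inner_smul_right, he i j, ← hs2]
  simp only [conj_trivial]
  field_simp

/-- quadratic forms -/
lemma quad_mem (w : E) : (fun x : V => ⟪w, T x x⟫) ∈ PP V 2 := by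
  have : (fun x : V => ⟪w, T x x⟫) = ∑ i, ∑ j, (⟪w, T (stdOrthonormalBasis ℝ V i)
      (stdOrthonormalBasis ℝ V j)⟫ • fun x : V => ⟪stdOrthonormalBasis ℝ V i, x⟫ *
        (⟪stdOrthonormalBasis ℝ V j, x⟫ * (1:ℝ))) := by
    funext x
    have h := (stdOrthonormalBasis ℝ V).sum_repr x
    simp only [(stdOrthonormalBasis ℝ V).repr_apply_apply] at h
    conv_lhs => rw [← h]
    simp only [map_sum, ContinuousLinearMap.coe_sum', Finset.sum_apply, map_smul,
      ContinuousLinearMap.coe_smul', Pi.smul_apply, inner_sum, inner_smul_right, smul_eq_mul]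
    conv_rhs => rw [Finset.sum_comm]
    refine Finset.sum_congr rfl fun i _ => ?_
    rw [Finset.mul_sum]
    refine Finset.sum_congr rfl fun j _ => ?_
    ring
  rw [this]
  exact Submodule.sum_mem _ fun i _ => Submodule.sum_mem _ fun j _ =>
    Submodule.smul_mem _ _ (lin_mul _ (lin_mul _ (const_mem 1)))

end R235.VE
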