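import Pool.Agent.R235.VE.Ver2
import Pool.Agent.R235.VE.Self

open scoped RealInnerProductSpace ContDiff
open InnerProductSpace Laplacian

namespace R235.VE

variable {V : Type*} [NormedAddCommGroup V] [InnerProductSpace ℝ V] [FiniteDimensional ℝ V]
variable {E : Type*} [NormedAddCommGroup E] [InnerProductSpace ℝ E]
variable {n : ℕ} {T : V →L[ℝ] V →L[ℝ] E}

lemma quad_fderiv (w : E) (y v : V) :
    fderiv ℝ (fun y : V => ⟪w, T y y⟫) y v = ⟪w, T y v⟫ + ⟪w, T v y⟫ := by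
  have h1 : HasFDerivAt (fun y : V => T y y) _ y := (T.hasFDerivAt (x := y)).clm_apply (hasFDerivAt_id y)
  have h2 : HasFDerivAt (fun y : V => innerSL ℝ w (T y y)) _ y :=
    HasFDerivAt.comp (g := fun A => innerSL ℝ w A) y ((innerSL ℝ w).hasFDerivAt) h1
  have h3 : fderiv ℝ (fun y : V => ⟪w, T y y⟫) y = _ := h2.fderiv
  rw [h3]
  simp [inner_add_right]

lemma quad_lap (w : E) (x : V) : (Δ (fun y : V => ⟪w, T y y⟫)) x = 2 * ⟪w, Idt T⟫ := by
  rw [lap_eq (stdOrthonormalBasis ℝ V)]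
  have hs : ∀ v, Hs (fun y : V => ⟪w, T y y⟫) x v v = 2 * ⟪w, T v v⟫ := by
    intro v
    rw [Hs_eq (PP_smooth (quad_mem w))]
    have e : (fun y => fderiv ℝ (fun y : V => ⟪w, T y y⟫) y v)
        = fun y => ((innerSL ℝ w).comp (T.flip v + T v)) y := by
      funext y
      rw [quad_fderiv]
      simp [inner_add_right]
    rw [e, ContinuousLinearMap.fderiv]
    simp [inner_add_right]
    ring
  simp only [hs]
  rw [← Finset.mul_sum]
  unfold Idt
  rw [inner_sum]

/-- coordinate functions are eigenfunctions -/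
lemma DS_coord (hn1 : 1 ≤ n) (w : E) (x : V) :
    DS n (fun y => ⟪w, vz n T y⟫) x = -(2 * (n + 1)) * ⟪w, vz n T x⟫ := by
  have e : (fun y : V => ⟪w, vz n T y⟫) = cc n • ((fun y : V => ⟪w, T y y⟫) +
      fun _ => -(((n:ℝ) + 1)⁻¹ * ⟪w, Idt T⟫)) := by
    funext y
    simp only [vz, inner_smul_right, inner_sub_right, Pi.smul_apply, Pi.add_apply, smul_eq_mul]
    ring
  have hq := PP_smooth (quad_mem (T := T) w)
  have hqa : ContDiff ℝ ∞ ((fun y : V => ⟪w, T y y⟫) +
      fun _ => -(((n:ℝ) + 1)⁻¹ * ⟪w, Idt T⟫)) := hq.add contDiff_const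
  rw [e, DS_smul n hqa, DS_add n hq contDiff_const, DS_PP n (quad_mem w),
    DS_PP n (const_mem _), quad_lap, PP_lap_zero (const_mem _) (by norm_num)]
  simp only [vz, inner_smul_right, inner_sub_right]
  have h0 : (n:ℝ) + 1 ≠ 0 := by positivity
  push_cast
  field_simp
  ring

theorem VM_minimal (hn1 : 1 ≤ n) (hn : Module.finrank ℝ V = n + 1) (hT : IsTens T) :
    IsMinimalInSphere n (VM n T) := by
  refine ⟨?_, ?_⟩
  · rintro _ ⟨x, hx, rfl⟩
    have hx1 : ‖x‖ = 1 := by simpa using hx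
    simp [vz_norm hn1 hT hn hx1]
  · rintro _ ⟨x, hx, rfl⟩ γ hγ w hw
    have hx1 : ‖x‖ = 1 := by simpa using hx
    have h := frame_sum hn1 hn hT hx1 hγ (F := fun A => ⟪w, A⟫) (innerSL ℝ w).contDiff
    rw [DS_coord hn1, real_inner_comm (vz n T x) w, hw, mul_zero, mul_zero] at h
    have key : ∀ i, ⟪deriv (deriv (γ i)) 0, w⟫ = deriv (deriv ((fun A => ⟪w, A⟫) ∘ γ i)) 0 := by
      intro i
      have hs := (hγ.1 i).1.1
      have e1 : deriv ((fun A => ⟪w, A⟫) ∘ γ i) = fun t => ⟪w, deriv (γ i) t⟫ := by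
        funext t
        exact ((innerSL ℝ w).hasFDerivAt.comp_hasDerivAt t (hasDerivAt_of_smooth hs t)).deriv
      rw [e1, real_inner_comm w (deriv (deriv (γ i)) 0)]
      exact ((innerSL ℝ w).hasFDerivAt.comp_hasDerivAt 0
        (hasDerivAt_of_smooth (deriv_smoothV hs) 0)).deriv.symm
    rw [sum_inner, Finset.sum_congr rfl fun i _ => key i, h]

lemma vz_nrm (y : V) : vz n T (nrm y) = cc n • ((‖y‖ ^ 2)⁻¹ • T y y - ((n:ℝ) + 1)⁻¹ • Idt T) := by
  unfold vz nrm
  rw [map_smul, map_smul, _root_.smul_apply, smul_smul, ← inv_pow, sq]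

lemma onb_expand (hn : Module.finrank ℝ V = n + 1) {x : V} (hx : ‖x‖ = 1)
    {e : Fin n → V} (he : Orthonormal ℝ e) (hxe : ∀ i, ⟪x, e i⟫ = 0) (z : V) :
    z = ⟪x, z⟫ • x + ∑ i, ⟪e i, z⟫ • e i := by
  obtain ⟨b, hb0, hb⟩ := exists_onb hn hx he hxe
  have h := b.sum_repr z
  simp only [b.repr_apply_apply] at h
  conv_lhs => rw [← h]
  rw [Fin.sum_univ_succ, hb0]
  simp only [hb]

theorem VM_submanifold (hn1 : 1 ≤ n) (hn : Module.finrank ℝ V = n + 1) (hT : IsTens T) :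
    IsSubmanifold n (VM n T) := by
  rintro _ ⟨x, hx, rfl⟩
  have hx1 : ‖x‖ = 1 := by simpa using hx
  obtain ⟨e, he, hxe⟩ := exists_frame hn hx1
  have hex : ∀ i, ⟪e i, x⟫ = 0 := fun i => by rw [real_inner_comm]; exact hxe i
  let y : EuclideanSpace ℝ (Fin n) → V := fun u => x + ∑ i, u i • e i
  have hyx : ∀ u, ⟪y u, x⟫ = 1 := by
    intro u
    simp only [y, inner_add_left, sum_inner, inner_smul_left, hex, mul_zero,
      Finset.sum_const_zero, add_zero]
    exact inner_self_one hx1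
  have hye : ∀ u i, ⟪y u, e i⟫ = u i := by
    intro u i
    simp only [y, inner_add_left, sum_inner, inner_smul_left, hxe, zero_add, conj_trivial]
    simp only [orthonormal_iff_ite.1 he]
    simp
  have hy0 : ∀ u, y u ≠ 0 := fun u h => by
    have := hyx u
    rw [h, inner_zero_left] at this
    norm_num at this
  have hPh : ∀ u, Ph n T (vz n T (nrm (y u))) = (‖y u‖ ^ 2)⁻¹ • T (y u) (y u) := by
    intro u
    rw [Ph_vz hn1]
    unfold nrm
    rw [map_smul, map_smul, _root_.smul_apply, smul_smul, ← inv_pow, sq]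
  have hysm : ContDiff ℝ ∞ y := by
    refine contDiff_const.add (ContDiff.sum fun i _ => ContDiff.smul ?_ contDiff_const)
    fun_prop
  have hPsm : ContDiff ℝ ∞ (Ph n T) := by
    unfold Ph
    exact (contDiff_id.const_smul _).add contDiff_const
  refine ⟨Set.univ, {A | 0 < ⟪Ph n T A, T x x⟫}, fun u => vz n T (nrm (y u)),
    fun A => WithLp.toLp 2 (fun i => ⟪Ph n T A, T (e i) x⟫ / ⟪Ph n T A, T x x⟫), isOpen_univ,
    ?_, ?_, ?_, ?_, ?_, ?_⟩
  · exact isOpen_lt continuous_const (hPsm.continuous.inner continuous_const)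
  · simp only [Set.mem_ofPred_eq]
    rw [Ph_vz hn1, hT, inner_self_one hx1]
    norm_num
  · simp only [vz_nrm]
    refine ContDiff.contDiffOn ?_
    refine (ContDiff.sub (ContDiff.smul ?_ ((T.contDiff.comp hysm).clm_apply hysm))
      contDiff_const).const_smul _
    refine ContDiff.inv (hysm.norm_sq ℝ) fun u => ?_
    exact pow_ne_zero 2 (norm_ne_zero_iff.2 (hy0 u))
  · rw [contDiffOn_euclidean]
    intro i
    refine ContDiffOn.div (hPsm.inner ℝ contDiff_const).contDiffOn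
      (hPsm.inner ℝ contDiff_const).contDiffOn fun A hA => ?_
    exact (ne_of_gt hA)
  · ext A
    constructor
    · rintro ⟨u, -, rfl⟩
      refine ⟨⟨nrm (y u), by simp [nrm_norm (hy0 u)], rfl⟩, ?_⟩
      simp only [Set.mem_ofPred_eq]
      rw [hPh, inner_smul_left, hT, hyx]
      have : 0 < ‖y u‖ := norm_pos_iff.2 (hy0 u)
      simp only [conj_trivial, mul_one]
      positivity
    · rintro ⟨⟨z, hz, rfl⟩, hA⟩
      have hz1 : ‖z‖ = 1 := by simpa using hz
      simp only [Set.mem_ofPred_eq] at hA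
      rw [Ph_vz hn1, hT] at hA
      have hs : ⟪z, x⟫ ≠ 0 := fun h => by rw [h] at hA; norm_num at hA
      refine ⟨WithLp.toLp 2 (fun i => ⟪z, e i⟫ / ⟪z, x⟫), Set.mem_univ _, ?_⟩
      have hy : y (WithLp.toLp 2 (fun i => ⟪z, e i⟫ / ⟪z, x⟫)) = (⟪z, x⟫)⁻¹ • z := by
        have h := onb_expand hn hx1 he hxe z
        have h2 : (⟪z, x⟫)⁻¹ • z = (⟪z, x⟫)⁻¹ • (⟪x, z⟫ • x + ∑ i, ⟪e i, z⟫ • e i) := by rw [← h]
        rw [h2]
        simp only [y]
        rw [smul_add, smul_smul, Finset.smul_sum, real_inner_comm z x, inv_mul_cancel₀ hs, one_smul]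
        congr 1
        refine Finset.sum_congr rfl fun i _ => ?_
        rw [smul_smul, real_inner_comm z (e i)]
        congr 1
        rw [div_eq_mul_inv, mul_comm]
      show vz n T (nrm (y (WithLp.toLp 2 (fun i => ⟪z, e i⟫ / ⟪z, x⟫)))) = vz n T z
      rw [hy, vz_nrm, norm_smul, hz1, map_smul, map_smul, _root_.smul_apply, smul_smul, smul_smul]
      unfold vz
      congr 2
      have : (‖(⟪z, x⟫)⁻¹‖ * 1) ^ 2 = (⟪z, x⟫)⁻¹ * (⟪z, x⟫)⁻¹ := by
        rw [mul_one, Real.norm_eq_abs, sq_abs, sq]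
      rw [this]
      have h2 : ((⟪z, x⟫)⁻¹ * (⟪z, x⟫)⁻¹)⁻¹ * (⟪z, x⟫)⁻¹ * (⟪z, x⟫)⁻¹ = 1 := by
        rw [mul_assoc]
        exact inv_mul_cancel₀ (mul_ne_zero (inv_ne_zero hs) (inv_ne_zero hs))
      rw [h2, one_smul]
  · intro u _
    ext i
    show ⟪Ph n T (vz n T (nrm (y u))), T (e i) x⟫ / ⟪Ph n T (vz n T (nrm (y u))), T x x⟫ = u i
    rw [hPh, inner_smul_left, inner_smul_left, hT, hT, hyx, hye]
    have : ‖y u‖ ≠ 0 := norm_ne_zero_iff.2 (hy0 u)
    simp only [conj_trivial]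
    field_simp

theorem VM_compact : IsCompact (VM n T) :=
  (isCompact_sphere (0:V) 1).image vz_smooth.continuous

theorem VM_connected (hn1 : 1 ≤ n) (hn : Module.finrank ℝ V = n + 1) : IsConnected (VM n T) := by
  have h : 1 < Module.rank ℝ V := by
    rw [← Module.finrank_eq_rank, hn]
    exact_mod_cast (by omega : 1 < n + 1)
  exact (isConnected_sphere h 0 zero_le_one).image _ vz_smooth.continuous.continuousOn

end R235.VE
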