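import Pool.Agent.R235.VE.Ver3
import Pool.Agent.R235.VE.Comp

open scoped RealInnerProductSpace ContDiff
open InnerProductSpace Laplacian

namespace R235.VE

variable {V : Type*} [NormedAddCommGroup V] [InnerProductSpace ℝ V] [FiniteDimensional ℝ V]
variable {E : Type*} [NormedAddCommGroup E] [InnerProductSpace ℝ E]
variable {n : ℕ} {T : V →L[ℝ] V →L[ℝ] E}

/-- the eigenvalues of the Veronese manifold -/
noncomputable def mu (n m : ℕ) : ℝ := nu n m / (2 * cc n ^ 2)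

theorem mem_eigenspace_iff (hn1 : 1 ≤ n) (hn : Module.finrank ℝ V = n + 1) (hT : IsTens T) (μ : ℝ)
    (f : VM n T → ℝ) :
    f ∈ eigenspace n (VM n T) μ ↔ ∃ F : E → ℝ, ContDiff ℝ ∞ F ∧ (∀ p : VM n T, f p = F p) ∧
      ∀ x : V, ‖x‖ = 1 → DS n (fun y => F (vz n T y)) x = -(2 * cc n ^ 2 * μ) * F (vz n T x) := by
  have hc := cc_pos hn1
  constructor
  · rintro ⟨F, hF, hf, hF2⟩
    refine ⟨F, hF, hf, fun x hx => ?_⟩
    obtain ⟨γ, hγ⟩ := exists_geoframe hn1 hn hT hx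
    have h1 := frame_sum hn1 hn hT hx hγ hF
    have h2 := hF2 ⟨vz n T x, ⟨x, by simp [hx], rfl⟩⟩ γ hγ
    rw [h1] at h2
    have h3 : (2 * cc n ^ 2) * ((2 * cc n ^ 2)⁻¹ * DS n (fun y => F (vz n T y)) x)
        = (2 * cc n ^ 2) * (-μ * F (vz n T x)) := by rw [h2]
    rw [← mul_assoc, mul_inv_cancel₀ (by positivity), one_mul] at h3
    rw [h3]
    ring
  · rintro ⟨F, hF, hf, hF2⟩
    refine ⟨F, hF, hf, ?_⟩
    rintro ⟨_, x, hx, rfl⟩ γ hγ
    have hx1 : ‖x‖ = 1 := by simpa using hx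
    rw [frame_sum hn1 hn hT hx1 hγ hF, hF2 x hx1]
    have : (2 * cc n ^ 2) ≠ 0 := by positivity
    field_simp

/-- extension property -/
def Ext (n : ℕ) (T : V →L[ℝ] V →L[ℝ] E) (h : V → ℝ) : Prop :=
  ∃ F : E → ℝ, ContDiff ℝ ∞ F ∧ ∀ x : V, ‖x‖ = 1 → F (vz n T x) = h x

theorem ext_PP (hn1 : 1 ≤ n) (hT : IsTens T) {k : ℕ} {h : V → ℝ} (hh : h ∈ PP V (2 * k)) :
    Ext n T h := by
  have hPsm : ContDiff ℝ ∞ (Ph n T) := by
    unfold Ph
    exact (contDiff_id.const_smul _).add contDiff_const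
  have hadd : ∀ f g : V → ℝ, Ext n T f → Ext n T g → Ext n T (f + g) := by
    rintro f g ⟨F, hF, hf⟩ ⟨G, hG, hg⟩
    exact ⟨F + G, hF.add hG, fun x hx => by simp [hf x hx, hg x hx]⟩
  have hmul : ∀ f g : V → ℝ, Ext n T f → Ext n T g → Ext n T (f * g) := by
    rintro f g ⟨F, hF, hf⟩ ⟨G, hG, hg⟩
    exact ⟨F * G, hF.mul hG, fun x hx => by simp [hf x hx, hg x hx]⟩
  have h2 : ∀ g ∈ XX V ^ 2, Ext n T g := by
    intro g hg
    rw [pow_two] at hg
    refine Submodule.mul_induction_on hg ?_ hadd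
    rintro _ ⟨a, rfl⟩ _ ⟨b, rfl⟩
    refine ⟨fun A => ⟪T a b, Ph n T A⟫, contDiff_const.inner ℝ hPsm, fun x hx => ?_⟩
    simp only
    rw [Ph_vz hn1, hT]
    rfl
  unfold PP at hh
  rw [pow_mul] at hh
  refine Submodule.pow_induction_on_left' (XX V ^ 2) (C := fun _ g _ => Ext n T g) ?_ ?_ ?_ hh
  · intro r
    exact ⟨fun _ => r, contDiff_const, fun x _ => rfl⟩
  · intro x y i hx hy h1 h2
    exact hadd _ _ h1 h2
  · intro m hm i x hx h1
    exact hmul _ _ (h2 m hm) h1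

/-- Stone-Weierstrass on the Veronese manifold -/
theorem approx_vz {F : E → ℝ} (hF : Continuous F) : Approx (fun x => F (vz n T x)) := by
  have : CompactSpace (VM n T) := isCompact_iff_compactSpace.1 VM_compact
  have hmem : ∀ x : V, ‖x‖ = 1 → vz n T x ∈ VM n T := fun x hx => ⟨x, by simp [hx], rfl⟩
  let A : Subalgebra ℝ C(VM n T, ℝ) :=
    { carrier := {g | ∃ k : ℕ, ∃ h ∈ PP V (2 * k), ∀ (x : V) (hx : ‖x‖ = 1),
        g ⟨vz n T x, hmem x hx⟩ = h x}
      mul_mem' := by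
        rintro f g ⟨k, h, hh, hf⟩ ⟨l, h', hh', hg⟩
        refine ⟨k + l, fun x => h x * h' x, ?_, fun x hx => ?_⟩
        · have := PP_mul hh hh'
          rwa [← mul_add] at this
        · simp [hf x hx, hg x hx]
      add_mem' := by
        rintro f g ⟨k, h, hh, hf⟩ ⟨l, h', hh', hg⟩
        have a1 := normpow_mul hh l
        have a2 := normpow_mul hh' k
        rw [← mul_add] at a1 a2
        rw [add_comm l k] at a2
        refine ⟨k + l, _, Submodule.add_mem _ a1 a2, fun x hx => ?_⟩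
        simp [hf x hx, hg x hx, hx]
      algebraMap_mem' := by
        intro r
        exact ⟨0, fun _ => r, const_mem r, fun x hx => rfl⟩ }
  have hlin : ∀ w : E, (⟨fun p : VM n T => ⟪w, (p : E)⟫,
      continuous_const.inner continuous_subtype_val⟩ : C(VM n T, ℝ)) ∈ A := by
    intro w
    refine ⟨1, (cc n • ((fun x => ⟪w, T x x⟫) - (((n:ℝ) + 1)⁻¹ * ⟪w, Idt T⟫) •
      (fun x => ‖x‖ ^ 2))), ?_, fun x hx => ?_⟩
    · exact Submodule.smul_mem _ _ (Submodule.sub_mem _ (quad_mem w)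
        (Submodule.smul_mem _ _ normsq_mem))
    · simp only [ContinuousMap.coe_mk, vz, inner_smul_right, inner_sub_right, Pi.smul_apply,
        Pi.sub_apply, smul_eq_mul, hx]
      ring
  have hsep : A.SeparatesPoints := by
    intro p q hpq
    refine ⟨_, ⟨_, hlin ((p : E) - q), rfl⟩, ?_⟩
    simp only [ContinuousMap.coe_mk]
    intro h
    have h1 : ⟪(p : E) - q, (p : E) - q⟫ = (0:ℝ) := by
      rw [inner_sub_right, h, sub_self]
    exact hpq (Subtype.ext (sub_eq_zero.1 (inner_self_eq_zero.1 h1)))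
  intro ε hε
  obtain ⟨⟨g, k, h, hh, hg⟩, hgε⟩ :=
    ContinuousMap.exists_mem_subalgebra_near_continuousMap_of_separatesPoints A hsep
      (⟨fun p : VM n T => F p, hF.comp continuous_subtype_val⟩ : C(VM n T, ℝ)) ε hε
  refine ⟨k, h, hh, fun x hx => ?_⟩
  have h1 := ContinuousMap.norm_coe_le_norm (g -
    (⟨fun p : VM n T => F p, hF.comp continuous_subtype_val⟩ : C(VM n T, ℝ))) ⟨vz n T x, hmem x hx⟩
  have h2 : ‖g ⟨vz n T x, hmem x hx⟩ - F (vz n T x)‖ ≤ ε := h1.trans hgε.le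
  rw [hg x hx, Real.norm_eq_abs, abs_sub_comm] at h2
  exact h2

variable [MeasurableSpace V] [BorelSpace V]

theorem eig_none (hn1 : 1 ≤ n) (hn : Module.finrank ℝ V = n + 1) (hT : IsTens T) {μ : ℝ}
    (hμ : ∀ m, μ ≠ mu n m) : eigenspace n (VM n T) μ = ⊥ := by
  have hc := cc_pos hn1
  rw [eq_bot_iff]
  intro f hf
  obtain ⟨F, hF, hf, hF2⟩ := (mem_eigenspace_iff hn1 hn hT μ f).1 hf
  have h1 := classify_none hn1 hn (G := fun y => F (vz n T y)) (hF.comp vz_smooth)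
    (approx_vz hF.continuous) hF2 (fun m h => hμ m (by
      unfold mu
      rw [← h]
      field_simp))
  rw [Submodule.mem_bot]
  funext p
  obtain ⟨_, x, hx, rfl⟩ := p
  rw [hf]
  exact h1 x (by simpa using hx)

/-- the eigenspaces of the Veronese manifold -/
theorem eig_finrank (hn1 : 1 ≤ n) (hn : Module.finrank ℝ V = n + 1) (hT : IsTens T) (m : ℕ) :
    Module.Finite ℝ (eigenspace n (VM n T) (mu n m)) ∧
      Module.finrank ℝ (eigenspace n (VM n T) (mu n m)) = Module.finrank ℝ (WW V n m) := by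
  have hc := cc_pos hn1
  have hν : 2 * cc n ^ 2 * mu n m = nu n m := by
    unfold mu
    field_simp
  choose s hs using fun p : VM n T => p.2
  have hs1 : ∀ p, ‖s p‖ = 1 := fun p => by simpa using (hs p).1
  have hs2 : ∀ p : VM n T, vz n T (s p) = p := fun p => (hs p).2
  let Φ : WW V n m →ₗ[ℝ] (VM n T → ℝ) :=
    { toFun := fun h p => (h : V → ℝ) (s p)
      map_add' := fun _ _ => rfl
      map_smul' := fun _ _ => rfl }
  have hΦ : ∀ (h : WW V n m) (F : E → ℝ), (∀ x : V, ‖x‖ = 1 → F (vz n T x) = (h : V → ℝ) x) →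
      ∀ p : VM n T, Φ h p = F p := by
    intro h F hF p
    show (h : V → ℝ) (s p) = F p
    rw [← hF (s p) (hs1 p), hs2]
  have hinj : Function.Injective Φ := by
    rw [← LinearMap.ker_eq_bot, LinearMap.ker_eq_bot']
    intro h hh
    obtain ⟨F, hF, hFh⟩ := ext_PP (n := n) hn1 hT h.2.1
    have h1 : ∀ x : V, ‖x‖ = 1 → (h : V → ℝ) x = 0 := by
      intro x hx
      rw [← hFh x hx]
      have h2 := hΦ h F hFh ⟨vz n T x, ⟨x, by simp [hx], rfl⟩⟩
      rw [hh] at h2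
      exact h2.symm
    exact Subtype.ext (PP_eq_zero hn h.2.1 h1)
  have hrange : LinearMap.range Φ = eigenspace n (VM n T) (mu n m) := by
    ext f
    constructor
    · rintro ⟨h, rfl⟩
      obtain ⟨F, hF, hFh⟩ := ext_PP (n := n) hn1 hT h.2.1
      rw [mem_eigenspace_iff hn1 hn hT]
      refine ⟨F, hF, hΦ h F hFh, fun x hx => ?_⟩
      have hFs : ContDiff ℝ ∞ (fun y => F (vz n T y)) := hF.comp vz_smooth
      rw [DS_congr hn hFs (PP_smooth h.2.1) hFh hx, h.2.2 x hx, hν, hFh x hx]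
    · intro hf
      obtain ⟨F, hF, hf, hF2⟩ := (mem_eigenspace_iff hn1 hn hT _ f).1 hf
      rw [hν] at hF2
      obtain ⟨e, he, hGe⟩ := classify hn1 hn (G := fun y => F (vz n T y)) (hF.comp vz_smooth)
        (approx_vz hF.continuous) hF2
      refine ⟨⟨e, he⟩, ?_⟩
      funext p
      rw [hΦ ⟨e, he⟩ F hGe p, hf]
  rw [← hrange]
  let L := LinearEquiv.ofInjective Φ hinj
  exact ⟨Module.Finite.equiv L, L.finrank_eq.symm⟩

lemma mu_zero (n : ℕ) : mu n 0 = 0 := by simp [mu, nu_zero]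

lemma mu_strictMono (hn1 : 1 ≤ n) : StrictMono (mu n) := by
  intro a b hab
  unfold mu
  have hc := cc_pos hn1
  exact div_lt_div_of_pos_right (nu_strictMono hn1 hab) (by positivity)

lemma mu_one (hn1 : 1 ≤ n) : mu n 1 = n := by
  have h0 : (0:ℝ) < n := by exact_mod_cast hn1
  unfold mu nu
  rw [cc_sq hn1]
  push_cast
  field_simp
  ring

lemma mu_two (hn1 : 1 ≤ n) : mu n 2 = 2 * n * (n + 3) / (n + 1) := by
  have h0 : (0:ℝ) < n := by exact_mod_cast hn1
  unfold mu nu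
  rw [cc_sq hn1]
  push_cast
  field_simp
  ring

end R235.VE
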